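import Pool.Agent.Q47.GA.Char

/-!
# Integral combinations of line bundles
-/

set_option autoImplicit false

namespace Q47.GA

open Pool.Agent.W594.SYZ2 Pool.Agent.W594.SYZ2.TQ Pool.Agent.TH735.AQ Q47.EB Q47.TB
open Q47.MM (Inv inv_of_chern IsFixed)

variable {V : Type*} [NormedAddCommGroup V] [NormedSpace ℂ V] {Γ : Subgroup (V ≃ᵃ[ℂ] V)}
  {κ : Type*} [Fintype κ]

theorem diff_zpow {f : V → ℂ} (hf : Differentiable ℂ f) (h0 : ∀ v, f v ≠ 0) (n : ℤ) :
    Differentiable ℂ fun v => f v ^ n := by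
  obtain ⟨k, rfl | rfl⟩ := n.eq_nat_or_neg
  · simp only [zpow_natCast]
    exact hf.pow k
  · have h1 : (fun v => f v ^ (-(k : ℤ))) = fun v => (f v ^ k)⁻¹ := by
      funext v
      rw [zpow_neg, zpow_natCast]
    rw [h1]
    exact fun v => ((hf.pow k) v).inv (pow_ne_zero _ (h0 v))

/-- The line bundle `∏ D_k ^ n_k`. -/
noncomputable def gb (D : κ → LineBundle Γ) (n : κ → ℤ) : LineBundle Γ where
  e := fun γ v => ∏ k, (D k).e γ v ^ n k
  holo := fun γ => prod_diff Finset.univ (fun k v => (D k).e γ v ^ n k)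
    fun k => diff_zpow ((D k).holo γ) ((D k).ne_zero γ) _
  ne_zero := fun γ v => Finset.prod_ne_zero_iff.2 fun k _ => zpow_ne_zero _ ((D k).ne_zero γ v)
  mul := fun γ δ v => by
    rw [← Finset.prod_mul_distrib]
    exact Finset.prod_congr rfl fun k _ => by rw [(D k).mul, mul_zpow]
  stab := fun γ v h => Finset.prod_eq_one fun k _ => by rw [(D k).stab γ v h, one_zpow]

omit [NormedAddCommGroup V] [NormedSpace ℂ V] in
/-- The class `∑ n_k H_k`. -/
def gH {V : Type*} (H : κ → V → V → ℂ) (n : κ → ℤ) (v w : V) : ℂ := ∑ k, (n k : ℂ) * H k v w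

theorem gH_herm {H : κ → V → V → ℂ} (hH : ∀ k, IsHermitian (H k)) (n : κ → ℤ) :
    IsHermitian (gH H n) := by
  refine ⟨fun a v w => ?_, fun a v w => ?_, fun v w => ?_⟩
  · simp only [gH, (hH _).add_left, mul_add, Finset.sum_add_distrib]
  · simp only [gH, (hH _).smul_left, Finset.mul_sum]
    exact Finset.sum_congr rfl fun k _ => by ring
  · simp only [gH, map_sum, map_mul, map_intCast, ← (hH _).symm]

omit [NormedAddCommGroup V] [NormedSpace ℂ V] in
theorem gH_re (H : κ → V → V → ℂ) (n : κ → ℤ) (v w : V) :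
    (gH H n v w).re = ∑ k, (n k : ℝ) * (H k v w).re := by
  simp only [gH, Complex.re_sum]
  refine Finset.sum_congr rfl fun k _ => ?_
  have : ((n k : ℤ) : ℂ) = ((n k : ℝ) : ℂ) := by push_cast; rfl
  rw [this, Complex.re_ofReal_mul]

/-- The potential. -/
def gF (F : κ → V → ℂ) (n : κ → ℤ) (v : V) : ℂ := ∑ k, (n k : ℂ) * F k v

theorem gb_pot {D : κ → LineBundle Γ} {H : κ → V → V → ℂ} {F : κ → V → ℂ}
    (h : ∀ k, IsPot (D k) (H k) (F k)) (n : κ → ℤ) : IsPot (gb D n) (gH H n) (gF F n) := by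
  refine ⟨Differentiable.fun_sum fun k _ => ((h k).1).const_mul _, fun γ v => ?_⟩
  have h1 : ‖(gb D n).e γ v‖ ^ 2 = ∏ k, (‖(D k).e γ v‖ ^ 2) ^ n k := by
    change ‖∏ k, (D k).e γ v ^ n k‖ ^ 2 = _
    rw [norm_prod, ← Finset.prod_pow]
    refine Finset.prod_congr rfl fun k _ => ?_
    rw [norm_zpow, ← zpow_natCast, ← zpow_natCast, ← zpow_mul, ← zpow_mul, mul_comm]
  have h2 : ∀ k, (‖(D k).e γ v‖ ^ 2) ^ n k = Real.exp ((n k : ℝ) * (Real.pi *
      (H k ((γ : V ≃ᵃ[ℂ] V) v) ((γ : V ≃ᵃ[ℂ] V) v)).re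
      + 2 * (F k ((γ : V ≃ᵃ[ℂ] V) v)).re - (Real.pi * (H k v v).re + 2 * (F k v).re))) := by
    intro k
    rw [(h k).2, ← Real.rpow_intCast, ← Real.exp_mul, mul_comm]
  have h3 : ∀ x, (gF F n x).re = ∑ k, (n k : ℝ) * (F k x).re := by
    intro x
    simp only [gF, Complex.re_sum]
    refine Finset.sum_congr rfl fun k _ => ?_
    have : ((n k : ℤ) : ℂ) = ((n k : ℝ) : ℂ) := by push_cast; rfl
    rw [this, Complex.re_ofReal_mul]
  rw [h1, Finset.prod_congr rfl fun k _ => h2 k, ← Real.exp_sum]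
  congr 1
  simp only [gH_re, h3, Finset.mul_sum]
  rw [← Finset.sum_add_distrib, ← Finset.sum_add_distrib, ← Finset.sum_sub_distrib]
  exact Finset.sum_congr rfl fun k _ => by ring

/-- The character is multiplicative. -/
theorem gb_chi (D : κ → LineBundle Γ) (F : κ → V → ℂ) (n : κ → ℤ) {b : V} (hb : b ∈ latt Γ) :
    chi (gb D n) (gF F n) b = ∏ k, chi (D k) (F k) b ^ n k := by
  rw [chi_eq hb, TQ.tw]
  have h1 : Complex.exp (gF F n 0 - gF F n (((tr b hb : Γ) : V ≃ᵃ[ℂ] V) 0))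
      = ∏ k, Complex.exp (F k 0 - F k (((tr b hb : Γ) : V ≃ᵃ[ℂ] V) 0)) ^ n k := by
    rw [gF, gF, ← Finset.sum_sub_distrib, Complex.exp_sum]
    refine Finset.prod_congr rfl fun k _ => ?_
    rw [← Complex.exp_int_mul]
    congr 1
    ring
  rw [h1]
  change (∏ k, (D k).e (tr b hb) 0 ^ n k) * _ = _
  rw [← Finset.prod_mul_distrib]
  refine Finset.prod_congr rfl fun k _ => ?_
  rw [chi_eq hb, TQ.tw, mul_zpow]

theorem chi_ne (L : LineBundle Γ) (F : V → ℂ) (b : V) : chi L F b ≠ 0 := by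
  rw [chi]
  split_ifs with h
  · exact mul_ne_zero (L.ne_zero _ _) (Complex.exp_ne_zero _)
  · exact one_ne_zero

omit [NormedAddCommGroup V] [NormedSpace ℂ V] in
theorem prod_zpow_add (z : κ → ℂ) (hz : ∀ k, z k ≠ 0) (n n' : κ → ℤ) :
    ∏ k, z k ^ (n k + n' k) = (∏ k, z k ^ n k) * ∏ k, z k ^ n' k := by
  rw [← Finset.prod_mul_distrib]
  exact Finset.prod_congr rfl fun k _ => zpow_add₀ (hz k) _ _

omit [NormedAddCommGroup V] [NormedSpace ℂ V] in
theorem prod_zpow_mul (z : κ → ℂ) (n : κ → ℤ) (N : ℤ) :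
    ∏ k, z k ^ (N * n k) = (∏ k, z k ^ n k) ^ N := by
  rw [← Finset.prod_zpow]
  exact Finset.prod_congr rfl fun k _ => by rw [mul_comm, zpow_mul]

omit [NormedAddCommGroup V] [NormedSpace ℂ V] in
theorem prod_zpow_sum {J : Type*} (s : Finset J) (z : κ → ℂ) (hz : ∀ k, z k ≠ 0) (b : J → ℤ)
    (n : J → κ → ℤ) :
    ∏ k, z k ^ (∑ j ∈ s, b j * n j k) = ∏ j ∈ s, (∏ k, z k ^ n j k) ^ b j := by
  classical
  induction s using Finset.induction_on with
  | empty => simp
  | insert j s hj ih =>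
    simp only [Finset.sum_insert hj]
    rw [prod_zpow_add z hz, Finset.prod_insert hj, ih, prod_zpow_mul]

variable [FiniteDimensional ℂ V]

/-- An invariant vector on which a class vanishes is in the kernel, if the class is nonnegative on
the invariant vectors. -/
theorem ker_of_inv (hΓ : IsTorusQuotient Γ) {H : V → V → ℂ} (hH : Inv Γ H)
    (hn : ∀ y, (∀ g : Lin Γ, g.1 y = y) → 0 ≤ (H y y).re) {x : V} (hx : ∀ g : Lin Γ, g.1 x = x)
    (h0 : (H x x).re = 0) (w : V) : H x w = 0 := by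
  have := finite_Lin hΓ
  have : Fintype (Lin Γ) := Fintype.ofFinite _
  let A : V → V := fun v => ∑ g : Lin Γ, g.1 v
  have hA1 : ∀ v w, A (v + w) = A v + A w := fun v w => by
    simp only [A, map_add, Finset.sum_add_distrib]
  have hA2 : ∀ (c : ℂ) v, A (c • v) = c • A v := fun c v => by
    simp only [A, map_smul, Finset.smul_sum]
  have hAinv : ∀ v, ∀ g : Lin Γ, g.1 (A v) = A v := fun v g => sum_inv v g
  let H' : V → V → ℂ := fun v w => H (A v) (A w)
  have hH' : IsHermitian H' := by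
    refine ⟨fun u v w => ?_, fun a v w => ?_, fun v w => ?_⟩
    · simp only [H', hA1, hH.herm.add_left]
    · simp only [H', hA2, hH.herm.smul_left]
    · exact hH.herm.symm _ _
  have hcard : (Fintype.card (Lin Γ) : ℂ) ≠ 0 := by
    have : Fintype.card (Lin Γ) ≠ 0 := Fintype.card_ne_zero
    exact_mod_cast this
  have hAx : A x = (Fintype.card (Lin Γ) : ℂ) • x := by
    simp only [A]
    rw [Finset.sum_congr rfl fun g _ => hx g, Finset.sum_const, Finset.card_univ,
      ← Nat.cast_smul_eq_nsmul ℂ]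
  have h1 : (H' x x).re = 0 := by
    simp only [H']
    rw [hAx, hH.herm.smul_left, h_smul_right hH.herm]
    have h2 : H x x = ((H x x).re : ℂ) := Q47.MM.real_diag hH.herm x
    rw [h2, h0]
    simp
  have h2 := h_isotropic hH' (fun v => hn _ (hAinv v)) x h1 w
  simp only [H'] at h2
  rw [hAx, hH.herm.smul_left] at h2
  have h3 : H x (A w) = 0 := (mul_eq_zero.1 h2).resolve_left hcard
  have h4 : H x (A w) = (Fintype.card (Lin Γ) : ℂ) * H x w := by
    have h5 : ∀ g : Lin Γ, H x (g.1 w) = H x w := by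
      intro g
      have h6 := hH.inv g.1 g.2 x w
      rw [hx g] at h6
      exact h6
    have h7 : ∀ s : Finset (Lin Γ), H x (∑ g ∈ s, g.1 w) = ∑ g ∈ s, H x (g.1 w) := by
      classical
      intro s
      induction s using Finset.induction_on with
      | empty => rw [Finset.sum_empty, Finset.sum_empty, h_zero_right hH.herm]
      | insert g s hg ih =>
        rw [Finset.sum_insert hg, Finset.sum_insert hg, h_add_right hH.herm, ih]
    simp only [A]
    rw [h7, Finset.sum_congr rfl fun g _ => h5 g, Finset.sum_const, Finset.card_univ,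
      nsmul_eq_mul]
  rw [h4] at h3
  exact (mul_eq_zero.1 h3).resolve_left hcard

end Q47.GA
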