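import Pool.Agent.Q47.TK.Zar2

/-!
# Characters of line bundles on the kernel lattice
-/

set_option autoImplicit false

namespace Q47.GA

open Pool.Agent.W594.SYZ2 Pool.Agent.W594.SYZ2.TQ Pool.Agent.TH735.AQ Pool.Agent.Y167 Q47.EB
open Q47.TB
open Q47.MM (IsFixed not_onMirror_add)

variable {V : Type*} [NormedAddCommGroup V] [NormedSpace ℂ V] [FiniteDimensional ℂ V]
  {Γ : Subgroup (V ≃ᵃ[ℂ] V)}

/-- The invariant vectors of the kernel. -/
def KG {H : V → V → ℂ} (Γ : Subgroup (V ≃ᵃ[ℂ] V)) (hH : IsHermitian H) : Submodule ℂ V where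
  carrier := {x | x ∈ ker hH ∧ ∀ g : Lin Γ, g.1 x = x}
  add_mem' := by
    rintro x y ⟨hx, hx'⟩ ⟨hy, hy'⟩
    exact ⟨(ker hH).add_mem hx hy, fun g => by rw [map_add, hx' g, hy' g]⟩
  zero_mem' := ⟨(ker hH).zero_mem, fun g => map_zero _⟩
  smul_mem' := by
    rintro c x ⟨hx, hx'⟩
    exact ⟨(ker hH).smul_mem c hx, fun g => by rw [map_smul, hx' g]⟩

omit [FiniteDimensional ℂ V] in
theorem sum_inv [Fintype (Lin Γ)] (b : V) (g : Lin Γ) :
    g.1 (∑ h : Lin Γ, h.1 b) = ∑ h : Lin Γ, h.1 b := by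
  rw [map_sum]
  exact Fintype.sum_equiv (Equiv.mulLeft g) _ _ fun h => rfl

/-- The lattice vectors span the invariant vectors of the kernel of a nef class. -/
theorem span_KG (hΓ : IsTorusQuotient Γ) {L : LineBundle Γ} {H : V → V → ℂ} {F : V → ℂ}
    (hH : IsHermitian H) (hpot : IsPot L H F) (hn : IsNefForm H) (x : V) (hx : x ∈ KG Γ hH) :
    x ∈ Submodule.span ℝ {b | b ∈ latt Γ ∧ b ∈ KG Γ hH} := by
  classical
  obtain ⟨k, P, -, -, n, Δ, π, hker, hfib, -⟩ := numerical hΓ ⟨hH, F, hpot⟩ hn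
  have : FiniteDimensional ℝ V := FiniteDimensional.complexToReal V
  have := finite_Lin hΓ
  have : Fintype (Lin Γ) := Fintype.ofFinite _
  let T : AddSubgroup (Fin n → ℂ) := (latt Γ).map π.toAddMonoidHom
  have hT : (T : Set (Fin n → ℂ)) ⊆ (latt Δ : Set (Fin n → ℂ)) := by
    rintro _ ⟨b, hb, rfl⟩
    obtain ⟨δ, hδ, h⟩ := hfib.maps _ (mem_latt.1 hb)
    change AffineEquiv.constVAdd ℂ (Fin n → ℂ) (π b) ∈ Δ
    have h1 : AffineEquiv.constVAdd ℂ (Fin n → ℂ) (π b) = δ := by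
      apply AffineEquiv.ext
      intro w
      obtain ⟨v, rfl⟩ := hfib.surj w
      rw [h v]
      change π b + π v = π (b + v)
      rw [map_add]
    rw [h1]
    exact hδ
  have hTd : DiscreteTopology T := by
    have h1 : DiscreteTopology (latt Δ : Set (Fin n → ℂ)) := hfib.base.discrete
    exact DiscreteTopology.of_subset h1 hT
  have hsp := span_ker (V := V) (W := Fin n → ℂ) (latt Γ) hΓ.discrete hΓ.span_top T hTd
    (π.restrictScalars ℝ) hfib.surj (fun w => Iff.rfl)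
  let A : V →ₗ[ℝ] V := ∑ g : Lin Γ, ((g.1 : V →ₗ[ℂ] V).restrictScalars ℝ)
  have hA : ∀ v, A v = ∑ g : Lin Γ, g.1 v := by
    intro v
    simp only [A, LinearMap.sum_apply]
    rfl
  have hAK : ∀ b ∈ latt Γ, b ∈ ker hH → A b ∈ latt Γ ∧ A b ∈ KG Γ hH := by
    intro b hb hbK
    rw [hA]
    obtain ⟨h1, h2, -⟩ := chi_sum' hH hpot hb hbK Finset.univ
    exact ⟨h1, h2, fun g => sum_inv b g⟩
  have h1 : x ∈ Submodule.span ℝ {b | b ∈ latt Γ ∧ π b = 0} := by
    have h2 : x ∈ LinearMap.ker (π.restrictScalars ℝ) := (hker x).2 hx.1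
    rw [← hsp] at h2
    exact h2
  have h2 : A x ∈ Submodule.span ℝ {b | b ∈ latt Γ ∧ b ∈ KG Γ hH} := by
    have h3 : A x ∈ (Submodule.span ℝ {b | b ∈ latt Γ ∧ π b = 0}).map A :=
      Submodule.mem_map_of_mem h1
    rw [Submodule.map_span] at h3
    refine Submodule.span_mono ?_ h3
    rintro _ ⟨b, ⟨hb, hb0⟩, rfl⟩
    exact hAK b hb ((hker b).1 hb0)
  have hcard : 0 < Fintype.card (Lin Γ) := Fintype.card_pos
  have h3 : A x = (Fintype.card (Lin Γ) : ℝ) • x := by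
    rw [hA, Finset.sum_congr rfl fun g _ => hx.2 g, Finset.sum_const, Finset.card_univ,
      ← Nat.cast_smul_eq_nsmul ℝ]
  have h4 : x = ((Fintype.card (Lin Γ) : ℝ)⁻¹) • A x := by
    rw [h3, smul_smul, inv_mul_cancel₀ (by positivity), one_smul]
  rw [h4]
  exact Submodule.smul_mem _ _ h2

/-- A line bundle with a meromorphic section with poles on the mirrors has the trivial character on
the invariant vectors of the kernel of a nef class, if its class vanishes on them. -/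
theorem char_one (hΓ : IsTorusQuotient Γ) {L : LineBundle Γ} {H : V → V → ℂ} {F : V → ℂ}
    (hH : IsHermitian H) (hpot : IsPot L H F) (hn : IsNefForm H)
    {L' : LineBundle Γ} {H' : V → V → ℂ} {F' : V → ℂ} (hH' : IsHermitian H')
    (hpot' : IsPot L' H' F') (hK : ∀ x ∈ KG Γ hH, x ∈ ker hH')
    {θ s : V → ℂ} (hθ : Differentiable ℂ θ) (hs : Differentiable ℂ s)
    (hne : ∃ v, θ v ≠ 0 ∧ ¬ OnMirror Γ v) (hzero : ∀ v, s v = 0 → OnMirror Γ v)
    (heq : ∀ (b : V) (hb : b ∈ latt Γ) (v : V),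
      θ (b + v) * s v = L'.e (tr b hb) v * θ v * s (b + v)) :
    ∀ b ∈ latt Γ, b ∈ KG Γ hH → chi L' F' b = 1 := by
  classical
  have hF := hpot'.1
  obtain ⟨v₀, hv₀, hmir⟩ := hne
  have hv₀' : s v₀ ≠ 0 := fun h => hmir (hzero v₀ h)
  have : FiniteDimensional ℝ V := FiniteDimensional.complexToReal V
  let K : Submodule ℂ V := KG Γ hH
  let SK : AddSubgroup K := (latt Γ).comap K.subtype.toAddMonoidHom
  have hmap : (Submodule.span ℝ (SK : Set K)).map (K.subtype.restrictScalars ℝ)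
      = Submodule.span ℝ {b | b ∈ latt Γ ∧ b ∈ K} := by
    rw [Submodule.map_span]
    congr 1
    ext x
    constructor
    · rintro ⟨y, hy, rfl⟩
      exact ⟨hy, y.2⟩
    · rintro ⟨hx, hx0⟩
      exact ⟨⟨x, hx0⟩, hx, rfl⟩
  have hspan : Submodule.span ℝ (SK : Set K) = ⊤ := by
    rw [eq_top_iff]
    rintro ⟨x, hx⟩ -
    have h1 := span_KG hΓ hH hpot hn x hx
    rw [← hmap] at h1
    obtain ⟨y, hy, hyx⟩ := h1
    have h2 : y = ⟨x, hx⟩ := Subtype.ext hyx
    rwa [← h2]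
  have : ProperSpace K := FiniteDimensional.proper ℂ K
  have hsne : ∀ x : K, s (v₀ + x) ≠ 0 := fun x h =>
    not_onMirror_add hΓ hmir (fun g hg _ => x.2.2 ⟨g, hg⟩) (hzero _ h)
  let u : K → ℂ := fun x => θ (v₀ + x) / s (v₀ + x) * Complex.exp (-F' (v₀ + x))
  have hu : Differentiable ℂ u := by
    have h2 : Differentiable ℂ fun x : K => v₀ + (x : V) := K.subtypeL.differentiable.const_add v₀
    have h3 : Differentiable ℂ fun x : K => θ (v₀ + x) := hθ.comp h2
    have h4 : Differentiable ℂ fun x : K => (s (v₀ + x))⁻¹ :=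
      Differentiable.inv (h := fun x : K => s (v₀ + x)) (hs.comp h2) hsne
    have h5 : Differentiable ℂ fun x : K => Complex.exp (-F' (v₀ + x)) :=
      (Differentiable.neg (f := fun x : K => F' (v₀ + x)) (hF.comp h2)).cexp
    have h6 : u = fun x : K => θ (v₀ + x) * (s (v₀ + x))⁻¹ * Complex.exp (-F' (v₀ + x)) := by
      funext x
      simp only [u, div_eq_mul_inv]
    rw [h6]
    exact (h3.mul h4).mul h5
  have hueq : ∀ (b : K) (_ : (b : V) ∈ latt Γ) (x : K), u (b + x) = chi L' F' b * u x := by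
    intro b hb x
    have h1 := heq (b : V) hb (v₀ + x)
    have h2 := tw_tr_ker hH' hpot' hb (hK _ b.2) (v₀ + (x : V))
    have hs1 : s ((b : V) + (v₀ + x)) ≠ 0 := by
      have := hsne (b + x)
      rwa [Submodule.coe_add, add_left_comm] at this
    have hs2 := hsne x
    have h3 : θ ((b : V) + (v₀ + x)) / s ((b : V) + (v₀ + x))
        = L'.e (tr (b : V) hb) (v₀ + x) * (θ (v₀ + x) / s (v₀ + x)) := by
      rw [div_eq_iff hs1, ← mul_div_assoc, div_mul_eq_mul_div, eq_div_iff hs2]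
      exact h1
    simp only [u]
    rw [← h2, TQ.tw, tr_apply, Submodule.coe_add, add_left_comm v₀ (b : V) (x : V), h3]
    have h4 : Complex.exp (-F' ((b : V) + (v₀ + x)))
        = Complex.exp (F' (v₀ + x) - F' ((b : V) + (v₀ + x))) * Complex.exp (-F' (v₀ + x)) := by
      rw [← Complex.exp_add]
      congr 1
      ring
    rw [h4]
    ring
  obtain ⟨C, hC⟩ := cobounded SK hspan
  have hbd : Bornology.IsBounded (Set.range u) := by
    have hK' : IsCompact (Metric.closedBall (0 : K) C) := isCompact_closedBall _ _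
    obtain ⟨R, hR⟩ := (isBounded_iff_forall_norm_le.1 (hK'.image hu.continuous).isBounded)
    rw [isBounded_iff_forall_norm_le]
    refine ⟨R, ?_⟩
    rintro _ ⟨v, rfl⟩
    obtain ⟨b, hb, hbC⟩ := hC v
    have hb' : (b : V) ∈ latt Γ := hb
    have h1 : ‖u (b + v)‖ = ‖u v‖ := by
      rw [hueq b hb' v, norm_mul, chi_norm hH' hpot' hb' (hK _ b.2), one_mul]
    rw [← h1]
    exact hR _ ⟨b + v, by rwa [mem_closedBall_zero_iff], rfl⟩
  intro b hb hbK
  have h1 := hueq ⟨b, hbK⟩ hb 0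
  have h2 : u (⟨b, hbK⟩ + 0) = u 0 := hu.apply_eq_apply_of_bounded hbd _ _
  rw [h2] at h1
  have h3 : u 0 ≠ 0 := by
    simp only [u, Submodule.coe_zero, add_zero]
    exact mul_ne_zero (div_ne_zero hv₀ hv₀') (Complex.exp_ne_zero _)
  exact (mul_right_cancel₀ h3 ((one_mul _).trans h1)).symm

/-- The character of a log pluricanonical divisor. -/
theorem char_pair (hΓ : IsTorusQuotient Γ) {L : LineBundle Γ} {H : V → V → ℂ} {F : V → ℂ}
    (hH : IsHermitian H) (hpot : IsPot L H F) (hn : IsNefForm H)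
    {L' : LineBundle Γ} {H' : V → V → ℂ} {F' : V → ℂ} (hH' : IsHermitian H')
    (hpot' : IsPot L' H' F') (hK : ∀ x ∈ KG Γ hH, x ∈ ker hH')
    {ρ β : V → ℂ} {m : ℕ} (hρ : IsRamification Γ ρ) (hβ : Differentiable ℂ β)
    (hβ0 : ∃ v, β v ≠ 0) (hL : Pool.Agent.TH735.AQ.IsLogPluricanonical L' m ρ β) :
    ∀ b ∈ latt Γ, b ∈ KG Γ hH → chi L' F' b = 1 := by
  obtain ⟨v, hv, hv'⟩ := exists_common hβ hρ.holo hβ0 (ram_ne_zero hρ)
  exact char_one hΓ hH hpot hn hH' hpot' hK (θ := β) (s := fun v => ρ v ^ m) hβ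
    (hρ.holo.pow m) ⟨v, hv, fun h => hv' ((hρ.zero_iff v).2 h)⟩
    (fun w hw => (hρ.zero_iff w).1 (eq_zero_of_pow_eq_zero hw)) (by
      intro b hb w
      have h1 := hL (tr b hb) w
      have h2 : LinearMap.det (((tr b hb : Γ) : V ≃ᵃ[ℂ] V).linear : V →ₗ[ℂ] V) = 1 := by
        have h3 : (((tr b hb : Γ) : V ≃ᵃ[ℂ] V).linear : V →ₗ[ℂ] V) = LinearMap.id := by
          ext w
          exact tr_linear b hb w
        rw [h3, LinearMap.det_id]
      rw [h2, one_pow, mul_one, tr_apply] at h1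
      exact h1)

/-- Global generation, if the character of the kernel lattice is torsion. -/
theorem gg_of_root' (hΓ : IsTorusQuotient Γ) {L : LineBundle Γ} {H : V → V → ℂ} {F : V → ℂ}
    (hH : IsHermitian H) (hF : IsPot L H F) (hn : IsNefForm H) {N : ℕ} (hN : 1 ≤ N)
    (hroot : ∀ b ∈ latt Γ, b ∈ ker hH → chi L F b ^ N = 1) : ∃ E : ℕ, 1 ≤ E ∧ GG (L.pow E) := by
  obtain ⟨n, Δ, π, -, hfib, hind⟩ := exists_sit hΓ hH hF hn hN hroot
  exact Q47.KN.gg_of_induces hfib hind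

/-- Global generation, if the character of the invariant kernel lattice is torsion. -/
theorem gg_of_char (hΓ : IsTorusQuotient Γ) {L : LineBundle Γ} {H : V → V → ℂ} {F : V → ℂ}
    (hH : IsHermitian H) (hF : IsPot L H F) (hn : IsNefForm H) {R : ℕ} (hR : 1 ≤ R)
    (h : ∀ b ∈ latt Γ, b ∈ KG Γ hH → chi L F b ^ R = 1) : ∃ E : ℕ, 1 ≤ E ∧ GG (L.pow E) := by
  have := finite_Lin hΓ
  have : Fintype (Lin Γ) := Fintype.ofFinite _
  have hcard : 0 < Nat.card (Lin Γ) := Nat.card_pos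
  have hN : 1 ≤ Nat.card (Lin Γ) * R := by
    generalize Nat.card (Lin Γ) = a at hcard ⊢
    exact Nat.mul_pos hcard hR
  refine gg_of_root' hΓ hH hF hn hN ?_
  intro b hb hbK
  obtain ⟨h1, h2, h3⟩ := chi_sum' hH hF hb hbK Finset.univ
  have h4 := h _ h1 ⟨h2, fun g => sum_inv b g⟩
  rw [h3, Finset.card_univ, ← Nat.card_eq_fintype_card, ← pow_mul] at h4
  exact h4

end Q47.GA
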