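import Pool.Agent.Q47.TB.Hull

/-!
# Newton polytopes of klt pairs with a nef part
-/

set_option autoImplicit false

namespace Q47.GA

open Q47.TB

variable {ι : Type*} [Fintype ι] {n : ℕ}

/-- Weight inequalities put a point into a convex hull. -/
theorem hull {u : ι → Fin n → ℤ} {S : Set (Set ι)} (hS : IsSmoothFan u S) {J : Type*} [Fintype J]
    (τ : J → ι → ℕ) {e : ι → ℤ} (hτ : ∀ j, LinEquiv u (fun i => (τ j i : ℤ)) e) {K₀ : ℕ}
    {y : ι → ℤ} (hy : LinEquiv u y fun i => K₀ * e i)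
    (hw : ∀ a : ι → ℕ, {i | a i ≠ 0} ∈ S → ∃ j, K₀ * ∑ i, (a i : ℤ) * τ j i ≤ ∑ i, (a i : ℤ) * y i) :
    ∃ b : J → ℕ, 1 ≤ ∑ j, b j ∧
      ∀ i, (K₀ : ℤ) * ∑ j, (b j : ℤ) * τ j i = (∑ j, (b j : ℤ)) * y i := by
  classical
  choose mτ hmτ using hτ
  obtain ⟨my, hmy⟩ := hy
  let q : J → Fin n → ℤ := fun j k => K₀ * mτ j k - my k
  have hq : ∀ (j : J) (i : ι), (K₀ : ℤ) * τ j i - y i = ∑ k, q j k * u i k := by
    intro j i
    simp only [q, sub_mul, Finset.sum_sub_distrib]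
    have h1 : (τ j i : ℤ) = e i + ∑ k, mτ j k * u i k := hmτ j i
    have h2 := hmy i
    have h3 : ∑ k, (K₀ : ℤ) * mτ j k * u i k = K₀ * ∑ k, mτ j k * u i k := by
      rw [Finset.mul_sum]
      exact Finset.sum_congr rfl fun k _ => by ring
    rw [h3, h1, h2]
    ring
  have hJ : Nonempty J := by
    obtain ⟨j, -⟩ := hw (fun _ => 0) (by simpa using hS.empty_mem)
    exact ⟨j⟩
  have hhull : (0 : Fin n → ℝ) ∈ convexHull ℝ (Set.range fun j => fun k => (q j k : ℝ)) := by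
    by_contra hcon
    obtain ⟨w, hwpos⟩ := sep_of_not_hull q hcon
    obtain ⟨a, ⟨haS, ha⟩, -⟩ := hS.rep w
    obtain ⟨j, hle⟩ := hw a haS
    have h1 := hwpos j
    have h2 : ∑ k, q j k * w k = ∑ i, (a i : ℤ) * ((K₀ : ℤ) * τ j i - y i) := by
      calc ∑ k, q j k * w k = ∑ k, ∑ i, (a i : ℤ) * (q j k * u i k) := by
            refine Finset.sum_congr rfl fun k _ => ?_
            rw [← ha k, Finset.mul_sum]
            exact Finset.sum_congr rfl fun i _ => by ring
        _ = ∑ i, (a i : ℤ) * ∑ k, q j k * u i k := by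
            rw [Finset.sum_comm]
            exact Finset.sum_congr rfl fun i _ => (Finset.mul_sum _ _ _).symm
        _ = _ := Finset.sum_congr rfl fun i _ => by rw [← hq j i]
    rw [h2] at h1
    have h3 : ∑ i, (a i : ℤ) * ((K₀ : ℤ) * τ j i - y i)
        = K₀ * ∑ i, (a i : ℤ) * τ j i - ∑ i, (a i : ℤ) * y i := by
      rw [Finset.mul_sum, ← Finset.sum_sub_distrib]
      exact Finset.sum_congr rfl fun i _ => by ring
    rw [h3] at h1
    linarith
  obtain ⟨r, g, b, hb1, hb⟩ := int_of_hull q hhull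
  have key : ∀ F : J → ℤ, ∑ j, ((∑ k, if g k = j then b k else 0 : ℕ) : ℤ) * F j
      = ∑ k, (b k : ℤ) * F (g k) := by
    intro F
    push_cast
    simp only [Finset.sum_mul, ite_mul, zero_mul]
    rw [Finset.sum_comm]
    refine Finset.sum_congr rfl fun k _ => ?_
    rw [Finset.sum_ite_eq, if_pos (Finset.mem_univ _)]
  have key1 : ∑ j, ((∑ k, if g k = j then b k else 0 : ℕ) : ℤ) = ∑ k, (b k : ℤ) := by
    have := key fun _ => 1
    simpa using this
  refine ⟨fun j => ∑ k, if g k = j then b k else 0, ?_, fun i => ?_⟩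
  · have h1 : ((∑ j, ∑ k, (if g k = j then b k else 0) : ℕ) : ℤ) = ((∑ k, b k : ℕ) : ℤ) := by
      push_cast
      push_cast at key1
      exact key1
    have h2 : (∑ j, ∑ k, (if g k = j then b k else 0) : ℕ) = ∑ k, b k := by exact_mod_cast h1
    rw [h2]
    exact hb1
  · rw [key fun j => (τ j i : ℤ), key1]
    have h1 : ∑ k, (b k : ℤ) * ((K₀ : ℤ) * τ (g k) i - y i) = 0 := by
      calc ∑ k, (b k : ℤ) * ((K₀ : ℤ) * τ (g k) i - y i)
          = ∑ k, (b k : ℤ) * ∑ l, q (g k) l * u i l :=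
            Finset.sum_congr rfl fun k _ => by rw [hq]
        _ = ∑ l, (∑ k, (b k : ℤ) * q (g k) l) * u i l := by
            simp only [Finset.mul_sum, Finset.sum_mul]
            rw [Finset.sum_comm]
            exact Finset.sum_congr rfl fun _ _ => Finset.sum_congr rfl fun _ _ => by ring
        _ = 0 := by simp [hb]
    have h2 : ∑ k, (b k : ℤ) * ((K₀ : ℤ) * τ (g k) i - y i)
        = K₀ * ∑ k, (b k : ℤ) * τ (g k) i - (∑ k, (b k : ℤ)) * y i := by
      rw [Finset.mul_sum, Finset.sum_mul, ← Finset.sum_sub_distrib]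
      exact Finset.sum_congr rfl fun k _ => by ring
    rw [h2] at h1
    linarith

/-- If the weight inequalities are strict, all coefficients can be taken positive. -/
theorem hull_pos {u : ι → Fin n → ℤ} {S : Set (Set ι)} (hS : IsSmoothFan u S) {J : Type*}
    [Fintype J] (τ : J → ι → ℕ) {e : ι → ℤ} (hτ : ∀ j, LinEquiv u (fun i => (τ j i : ℤ)) e)
    {m p q : ℕ} (hm : 1 ≤ m) (hqp : q < p)
    (hw : ∀ a : ι → ℕ, {i | a i ≠ 0} ∈ S → ∃ j, p * ∑ i, a i * τ j i ≤ q * (m * ∑ i, a i))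
    {k : ℕ} (hk : 1 ≤ k) {α : ι → ℕ} (hα : LinEquiv u (fun i => (α i : ℤ)) fun i => k * (e i - m)) :
    ∃ (K : ℕ) (b : J → ℕ), 1 ≤ K ∧ (∀ j, 1 ≤ b j) ∧ ∑ j, b j = K * k ∧
      ∀ i, ∑ j, b j * τ j i = K * (α i + k * m) := by
  classical
  have hJ : Nonempty J := by
    obtain ⟨j, -⟩ := hw (fun _ => 0) (by simpa using hS.empty_mem)
    exact ⟨j⟩
  set N := Fintype.card J with hN
  have hN1 : 1 ≤ N := Fintype.card_pos
  set z : ι → ℕ := fun i => ∑ j, τ j i with hz
  set Z := ∑ i, z i with hZ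
  have hzZ : ∀ i, z i ≤ Z := fun i =>
    Finset.single_le_sum (f := z) (fun _ _ => Nat.zero_le _) (Finset.mem_univ i)
  set K₁ := p * Z + N + 1 with hK₁
  have hK₁N : N < K₁ * k := by
    calc N < K₁ := by omega
      _ = K₁ * 1 := (mul_one _).symm
      _ ≤ K₁ * k := Nat.mul_le_mul le_rfl hk
  set K₀ := K₁ * k - N with hK₀
  have hK₀1 : 1 ≤ K₀ := by omega
  have hK₀c : (K₀ : ℤ) = K₁ * k - N := by
    rw [hK₀, Nat.cast_sub hK₁N.le]
    push_cast
    rfl
  choose mτ hmτ using id hτ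
  obtain ⟨mα, hmα⟩ := hα
  let y : ι → ℤ := fun i => K₁ * (α i + k * m) - z i
  have hy : LinEquiv u y fun i => K₀ * e i := by
    refine ⟨fun l => K₁ * mα l - ∑ j, mτ j l, fun i => ?_⟩
    have h1 : (α i : ℤ) = k * (e i - m) + ∑ l, mα l * u i l := hmα i
    have h2 : ∀ j, (τ j i : ℤ) = e i + ∑ l, mτ j l * u i l := fun j => hmτ j i
    have h3 : (z i : ℤ) = N * e i + ∑ j, ∑ l, mτ j l * u i l := by
      simp only [hz]
      push_cast
      simp only [h2, Finset.sum_add_distrib, Finset.sum_const, Finset.card_univ, nsmul_eq_mul]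
      rfl
    have h4 : ∑ l, ((K₁ : ℤ) * mα l - ∑ j, mτ j l) * u i l
        = K₁ * ∑ l, mα l * u i l - ∑ j, ∑ l, mτ j l * u i l := by
      simp only [sub_mul, Finset.sum_sub_distrib, Finset.mul_sum, Finset.sum_mul, mul_assoc]
      congr 1
      exact Finset.sum_comm
    simp only [y]
    rw [h4, h1, h3, hK₀c]
    ring
  obtain ⟨b, hb1, hb⟩ := hull hS τ hτ hy (by
    intro a ha
    obtain ⟨j, hj⟩ := hw a ha
    refine ⟨j, ?_⟩
    have h0 : ((p * ∑ i, a i * τ j i : ℕ) : ℤ) ≤ ((q * (m * ∑ i, a i) : ℕ) : ℤ) := by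
      exact_mod_cast hj
    push_cast at h0
    set A : ℤ := ∑ i, (a i : ℤ) with hA
    set X : ℤ := ∑ i, (a i : ℤ) * τ j i with hX
    have hA0 : 0 ≤ A := Finset.sum_nonneg fun i _ => Int.natCast_nonneg _
    have hX0 : 0 ≤ X := Finset.sum_nonneg fun i _ =>
      mul_nonneg (Int.natCast_nonneg _) (Int.natCast_nonneg _)
    have h1 : ∑ i, (a i : ℤ) * y i = K₁ * ∑ i, (a i : ℤ) * α i + K₁ * k * m * A
        - ∑ i, (a i : ℤ) * z i := by
      simp only [y, hA, Finset.mul_sum]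
      rw [← Finset.sum_add_distrib, ← Finset.sum_sub_distrib]
      exact Finset.sum_congr rfl fun i _ => by ring
    have h2 : ∑ i, (a i : ℤ) * z i ≤ Z * A := by
      rw [hA, Finset.mul_sum]
      refine Finset.sum_le_sum fun i _ => ?_
      rw [mul_comm (Z : ℤ)]
      exact mul_le_mul_of_nonneg_left (by exact_mod_cast hzZ i) (Int.natCast_nonneg _)
    have h3 : 0 ≤ ∑ i, (a i : ℤ) * α i := Finset.sum_nonneg fun i _ =>
      mul_nonneg (Int.natCast_nonneg _) (Int.natCast_nonneg _)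
    have hp0 : (0 : ℤ) < p := by
      have : 0 < p := by omega
      exact_mod_cast this
    -- multiply by `p`
    have h4 : (p : ℤ) * (K₀ * X) ≤ p * ∑ i, (a i : ℤ) * y i := by
      rw [h1]
      have e1 : (p : ℤ) * (K₀ * X) ≤ K₀ * (q * (m * A)) := by
        calc (p : ℤ) * (K₀ * X) = K₀ * (p * X) := by ring
          _ ≤ K₀ * (q * (m * A)) := mul_le_mul_of_nonneg_left h0 (Int.natCast_nonneg _)
      have e2 : (K₀ : ℤ) * (q * (m * A)) ≤ K₁ * k * (q * (m * A)) := by
        refine mul_le_mul_of_nonneg_right ?_ (by positivity)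
        rw [hK₀c]
        have : (0 : ℤ) ≤ N := Int.natCast_nonneg _
        linarith
      have e3 : (K₁ : ℤ) * k * (q * (m * A)) + p * (Z * A) ≤ p * (K₁ * k * m * A) := by
        have f1 : (q : ℤ) + 1 ≤ p := by exact_mod_cast hqp
        have f2 : (1 : ℤ) ≤ k := by exact_mod_cast hk
        have f3 : (1 : ℤ) ≤ m := by exact_mod_cast hm
        have f4 : (p : ℤ) * Z ≤ K₁ := by
          rw [hK₁]
          push_cast
          have : (0 : ℤ) ≤ N := Int.natCast_nonneg _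
          linarith
        have f5 : (0 : ℤ) ≤ K₁ := Int.natCast_nonneg _
        have f6 : (K₁ : ℤ) ≤ K₁ * k * m := by
          calc (K₁ : ℤ) = K₁ * 1 * 1 := by ring
            _ ≤ K₁ * k * m := mul_le_mul (mul_le_mul_of_nonneg_left f2 f5) f3 (by norm_num)
              (by positivity)
        have f7 : (p : ℤ) * Z * A ≤ K₁ * k * m * A :=
          mul_le_mul_of_nonneg_right (f4.trans f6) hA0
        have f8 : ((q : ℤ) + 1) * (K₁ * k * m * A) ≤ p * (K₁ * k * m * A) :=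
          mul_le_mul_of_nonneg_right f1 (by positivity)
        calc (K₁ : ℤ) * k * (q * (m * A)) + p * (Z * A) = q * (K₁ * k * m * A) + p * Z * A := by ring
          _ ≤ q * (K₁ * k * m * A) + K₁ * k * m * A := by linarith
          _ = ((q : ℤ) + 1) * (K₁ * k * m * A) := by ring
          _ ≤ _ := f8
      have e4 : (p : ℤ) * ∑ i, (a i : ℤ) * z i ≤ p * (Z * A) :=
        mul_le_mul_of_nonneg_left h2 hp0.le
      have e5 : (0 : ℤ) ≤ p * (K₁ * ∑ i, (a i : ℤ) * α i) := by positivity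
      calc (p : ℤ) * (K₀ * X) ≤ K₁ * k * (q * (m * A)) := e1.trans e2
        _ ≤ p * (K₁ * k * m * A) - p * (Z * A) := by linarith
        _ ≤ p * (K₁ * ∑ i, (a i : ℤ) * α i) + p * (K₁ * k * m * A)
            - p * ∑ i, (a i : ℤ) * z i := by linarith
        _ = _ := by ring
    exact le_of_mul_le_mul_left h4 hp0)
  set B := ∑ j, b j with hB
  have hBc : (∑ j, (b j : ℤ)) = (B : ℤ) := by
    rw [hB]
    push_cast
    rfl
  refine ⟨K₁ * B, fun j => B + K₀ * b j, Nat.mul_pos (by omega) hb1,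
    fun j => le_trans hb1 (Nat.le_add_right _ _), ?_, fun i => ?_⟩
  · have h1 : ((∑ j, (B + K₀ * b j) : ℕ) : ℤ) = ((K₁ * B * k : ℕ) : ℤ) := by
      push_cast
      rw [Finset.sum_add_distrib, ← Finset.mul_sum, hBc, Finset.sum_const, Finset.card_univ,
        nsmul_eq_mul, hK₀c, ← hN]
      ring
    exact_mod_cast h1
  · have h1 := hb i
    rw [hBc] at h1
    have h2 : ((∑ j, (B + K₀ * b j) * τ j i : ℕ) : ℤ) = ((K₁ * B * (α i + k * m) : ℕ) : ℤ) := by
      push_cast
      have h3 : ∑ j, ((B : ℤ) + K₀ * b j) * τ j i = B * z i + K₀ * ∑ j, (b j : ℤ) * τ j i := by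
        simp only [hz]
        push_cast
        rw [Finset.mul_sum, Finset.mul_sum, ← Finset.sum_add_distrib]
        exact Finset.sum_congr rfl fun j _ => by ring
      rw [h3, h1]
      simp only [y]
      ring
    exact_mod_cast h2

/-- If the adjoint class is effective on the fibre, the monomials span the lattice over `ℚ`. -/
theorem spanning {u : ι → Fin n → ℤ} {S : Set (Set ι)} (hS : IsSmoothFan u S) {J : Type*}
    [Fintype J] (τ : J → ι → ℕ) {e : ι → ℤ} (hτ : ∀ j, LinEquiv u (fun i => (τ j i : ℤ)) e)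
    {m p q : ℕ} (hm : 1 ≤ m) (hqp : q < p)
    (hw : ∀ a : ι → ℕ, {i | a i ≠ 0} ∈ S → ∃ j, p * ∑ i, a i * τ j i ≤ q * (m * ∑ i, a i))
    {k : ℕ} (hk : 1 ≤ k) {α : ι → ℕ} (hα : LinEquiv u (fun i => (α i : ℤ)) fun i => k * (e i - m))
    (w : Fin n → ℤ) :
    ∃ (N : ℕ) (b b' : J → ℕ), 1 ≤ N ∧ ∑ j, b j = ∑ j, b' j ∧
      ∀ i, (N : ℤ) * ∑ l, w l * u i l = ∑ j, (b j : ℤ) * τ j i - ∑ j, (b' j : ℤ) * τ j i := by
  classical
  set R := ∑ i, (∑ l, w l * u i l).natAbs with hR
  have hRi : ∀ i, -(R : ℤ) ≤ ∑ l, w l * u i l := by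
    intro i
    have h1 : (∑ l, w l * u i l).natAbs ≤ R :=
      Finset.single_le_sum (f := fun i => (∑ l, w l * u i l).natAbs) (fun _ _ => Nat.zero_le _)
        (Finset.mem_univ i)
    have h2 : |∑ l, w l * u i l| ≤ (R : ℤ) := by
      rw [Int.abs_eq_natAbs]
      exact_mod_cast h1
    exact (abs_le.1 h2).1
  set K₁ := p * R + 1 with hK₁
  obtain ⟨mα, hmα⟩ := hα
  have hmα' : ∀ i, (α i : ℤ) = k * (e i - m) + ∑ l, mα l * u i l := hmα
  have hp0 : (0 : ℤ) < p := by
    have : 0 < p := by omega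
    exact_mod_cast this
  -- the two points
  have main : ∀ ε : ℤ, (ε = 0 ∨ ε = 1) → ∃ b : J → ℕ, 1 ≤ ∑ j, b j ∧
      ∀ i, ((K₁ * k : ℕ) : ℤ) * ∑ j, (b j : ℤ) * τ j i
        = (∑ j, (b j : ℤ)) * (K₁ * (α i + k * m) + ε * ∑ l, w l * u i l) := by
    intro ε hε
    refine hull hS τ hτ (K₀ := K₁ * k)
      (y := fun i => K₁ * (α i + k * m) + ε * ∑ l, w l * u i l) ?_ fun a ha => ?_
    · refine ⟨fun l => K₁ * mα l + ε * w l, fun i => ?_⟩
      have h4 : ∑ l, ((K₁ : ℤ) * mα l + ε * w l) * u i l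
          = K₁ * ∑ l, mα l * u i l + ε * ∑ l, w l * u i l := by
        simp only [add_mul, Finset.sum_add_distrib, Finset.mul_sum, mul_assoc]
      beta_reduce
      rw [h4, hmα' i]
      push_cast
      ring
    · obtain ⟨j, hj⟩ := hw a ha
      refine ⟨j, ?_⟩
      have h0 : ((p * ∑ i, a i * τ j i : ℕ) : ℤ) ≤ ((q * (m * ∑ i, a i) : ℕ) : ℤ) := by
        exact_mod_cast hj
      push_cast at h0
      set A : ℤ := ∑ i, (a i : ℤ) with hA
      set X : ℤ := ∑ i, (a i : ℤ) * τ j i with hX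
      have hA0 : 0 ≤ A := Finset.sum_nonneg fun i _ => Int.natCast_nonneg _
      have h1 : ∑ i, (a i : ℤ) * (K₁ * (α i + k * m) + ε * ∑ l, w l * u i l)
          = K₁ * ∑ i, (a i : ℤ) * α i + K₁ * k * m * A
            + ε * ∑ i, (a i : ℤ) * ∑ l, w l * u i l := by
        simp only [hA, Finset.mul_sum]
        rw [← Finset.sum_add_distrib, ← Finset.sum_add_distrib]
        refine Finset.sum_congr rfl fun i _ => ?_
        have e1 : ∑ l, ε * ((a i : ℤ) * (w l * u i l)) = (a i : ℤ) * ∑ l, ε * (w l * u i l) := by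
          rw [Finset.mul_sum]
          exact Finset.sum_congr rfl fun l _ => by ring
        rw [e1]
        ring
      have h2 : -((R : ℤ) * A) ≤ ε * ∑ i, (a i : ℤ) * ∑ l, w l * u i l := by
        have e1 : -((R : ℤ) * A) ≤ ∑ i, (a i : ℤ) * ∑ l, w l * u i l := by
          rw [hA, Finset.mul_sum, ← Finset.sum_neg_distrib]
          refine Finset.sum_le_sum fun i _ => ?_
          have := mul_le_mul_of_nonneg_left (hRi i) (Int.natCast_nonneg (a i))
          linarith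
        rcases hε with rfl | rfl
        · rw [zero_mul]
          have : (0 : ℤ) ≤ R * A := mul_nonneg (Int.natCast_nonneg _) hA0
          linarith
        · rw [one_mul]
          exact e1
      have h3 : 0 ≤ ∑ i, (a i : ℤ) * α i := Finset.sum_nonneg fun i _ =>
        mul_nonneg (Int.natCast_nonneg _) (Int.natCast_nonneg _)
      have h4 : (p : ℤ) * (((K₁ * k : ℕ) : ℤ) * X)
          ≤ p * ∑ i, (a i : ℤ) * (K₁ * (α i + k * m) + ε * ∑ l, w l * u i l) := by
        rw [h1]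
        push_cast
        have e1 : (p : ℤ) * (K₁ * k * X) ≤ K₁ * k * (q * (m * A)) := by
          calc (p : ℤ) * (K₁ * k * X) = K₁ * k * (p * X) := by ring
            _ ≤ K₁ * k * (q * (m * A)) := mul_le_mul_of_nonneg_left h0 (by positivity)
        have e3 : (K₁ : ℤ) * k * (q * (m * A)) + p * (R * A) ≤ p * (K₁ * k * m * A) := by
          have f1 : (q : ℤ) + 1 ≤ p := by exact_mod_cast hqp
          have f2 : (1 : ℤ) ≤ k := by exact_mod_cast hk
          have f3 : (1 : ℤ) ≤ m := by exact_mod_cast hm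
          have f4 : (p : ℤ) * R ≤ K₁ := by
            rw [hK₁]
            push_cast
            linarith
          have f5 : (0 : ℤ) ≤ K₁ := Int.natCast_nonneg _
          have f6 : (K₁ : ℤ) ≤ K₁ * k * m := by
            calc (K₁ : ℤ) = K₁ * 1 * 1 := by ring
              _ ≤ K₁ * k * m := mul_le_mul (mul_le_mul_of_nonneg_left f2 f5) f3 (by norm_num)
                (by positivity)
          have f7 : (p : ℤ) * R * A ≤ K₁ * k * m * A :=
            mul_le_mul_of_nonneg_right (f4.trans f6) hA0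
          have f8 : ((q : ℤ) + 1) * (K₁ * k * m * A) ≤ p * (K₁ * k * m * A) :=
            mul_le_mul_of_nonneg_right f1 (by positivity)
          calc (K₁ : ℤ) * k * (q * (m * A)) + p * (R * A) = q * (K₁ * k * m * A) + p * R * A := by ring
            _ ≤ q * (K₁ * k * m * A) + K₁ * k * m * A := by linarith
            _ = ((q : ℤ) + 1) * (K₁ * k * m * A) := by ring
            _ ≤ _ := f8
        have e4 := mul_le_mul_of_nonneg_left h2 hp0.le
        have e5 : (0 : ℤ) ≤ p * (K₁ * ∑ i, (a i : ℤ) * α i) := by positivity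
        linarith
      exact le_of_mul_le_mul_left h4 hp0
  obtain ⟨b₀, hb₀, h₀⟩ := main 0 (Or.inl rfl)
  obtain ⟨b₁, hb₁, h₁⟩ := main 1 (Or.inr rfl)
  refine ⟨(∑ j, b₀ j) * ∑ j, b₁ j, fun j => K₁ * k * (∑ j, b₀ j) * b₁ j,
    fun j => K₁ * k * (∑ j, b₁ j) * b₀ j, Nat.mul_pos hb₀ hb₁, ?_, fun i => ?_⟩
  · rw [← Finset.mul_sum, ← Finset.mul_sum]
    ring
  · have e₀ := h₀ i
    have e₁ := h₁ i
    rw [zero_mul, add_zero] at e₀
    rw [one_mul] at e₁
    push_cast at e₀ e₁ ⊢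
    generalize (∑ j, (b₀ j : ℤ)) = x₀ at e₀ ⊢
    generalize (∑ j, (b₁ j : ℤ)) = x₁ at e₁ ⊢
    have f1 : ∑ j, (K₁ : ℤ) * k * x₀ * b₁ j * τ j i
        = x₀ * (K₁ * k * ∑ j, (b₁ j : ℤ) * τ j i) := by
      rw [Finset.mul_sum, Finset.mul_sum]
      exact Finset.sum_congr rfl fun j _ => by ring
    have f2 : ∑ j, (K₁ : ℤ) * k * x₁ * b₀ j * τ j i
        = x₁ * (K₁ * k * ∑ j, (b₀ j : ℤ) * τ j i) := by
      rw [Finset.mul_sum, Finset.mul_sum]
      exact Finset.sum_congr rfl fun j _ => by ring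
    rw [f1, f2, e₀, e₁]
    ring

end Q47.GA
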