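import Pool.Agent.Q47.TB.Lc

/-!
# Weight inequalities for klt pairs
-/

set_option autoImplicit false

namespace Q47.GA

open Q47.TB MvPolynomial MeasureTheory

variable {ι : Type*} [Fintype ι]

/-- The pair formed by the toric variety and the divisor `(1 / m) div f` is Kawamata log terminal: for
some `c > 1` the function `|f| ^ (-2 c / m)` is locally integrable on the set of the Cox coordinates
`x` of points. -/
def IsKlt (S : Set (Set ι)) (m : ℕ) (f : MvPolynomial ι ℂ) : Prop :=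
  ∃ c : ℝ, 1 < c ∧ ∀ x : ι → ℂ, {i | x i = 0} ∈ S →
    ∃ r > 0, ∫⁻ y in Metric.ball x r, ‖eval y f‖ₑ ^ (-(2 * c / m)) < ⊤

theorem rpow_le_add {z : ENNReal} {s t : ℝ} (hs : 0 ≤ s) (hst : s ≤ t) :
    z ^ (-s) ≤ 1 + z ^ (-t) := by
  rcases le_total 1 z with h | h
  · refine le_add_right ?_
    have h1 := ENNReal.rpow_le_rpow_of_exponent_le h (neg_nonpos.2 hs)
    rwa [ENNReal.rpow_zero] at h1
  · refine le_add_left ?_
    exact ENNReal.rpow_le_rpow_of_exponent_ge h (by linarith)

/-- Klt pairs stay log canonical if the boundary is increased. -/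
theorem lc_of_klt {S : Set (Set ι)} {m : ℕ} (hm : 1 ≤ m) {f : MvPolynomial ι ℂ}
    (h : IsKlt S m f) : ∃ p q : ℕ, 1 ≤ q ∧ q < p ∧ IsLogCanonical S (m * q) (f ^ p) := by
  obtain ⟨c, hc, hx⟩ := h
  obtain ⟨t, ht1, ht2⟩ := exists_rat_btwn hc
  have ht0 : 0 < t := by
    have h1 : (0 : ℝ) < t := by linarith
    exact_mod_cast h1
  have hden : 0 < t.den := t.den_pos
  have hnum : 0 < t.num := Rat.num_pos.2 ht0
  have htq : (t : ℝ) = (t.num.toNat : ℝ) / (t.den : ℝ) := by
    have h1 : ((t.num.toNat : ℕ) : ℤ) = t.num := Int.toNat_of_nonneg hnum.le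
    have h2 : ((t.num.toNat : ℕ) : ℝ) = ((t.num : ℤ) : ℝ) := by exact_mod_cast h1
    rw [h2]
    exact_mod_cast (Rat.num_div_den t).symm
  have hq0 : (0 : ℝ) < t.den := by exact_mod_cast hden
  have hm0 : (0 : ℝ) < m := by exact_mod_cast hm
  refine ⟨t.num.toNat, t.den, hden, ?_, fun x hxS c' hc' => ?_⟩
  · rw [htq, lt_div_iff₀ hq0, one_mul] at ht1
    exact_mod_cast ht1
  · obtain ⟨r, hr, hfin⟩ := hx x hxS
    set p := t.num.toNat with hp
    have hpq : (p : ℝ) / (t.den : ℝ) < c := by rw [← htq]; exact ht2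
    have hp0 : (0 : ℝ) ≤ p := Nat.cast_nonneg _
    rcases le_or_gt 0 c' with hc0 | hc0
    · refine ⟨r, hr, ?_⟩
      have h1 : ∀ y : ι → ℂ, ‖eval y (f ^ p)‖ₑ ^ (-(2 * c' / ((m * t.den : ℕ) : ℝ)))
          ≤ 1 + ‖eval y f‖ₑ ^ (-(2 * c / (m : ℝ))) := by
        intro y
        have h2 : ‖eval y (f ^ p)‖ₑ = ‖eval y f‖ₑ ^ (p : ℝ) := by
          rw [map_pow, enorm_pow, ENNReal.rpow_natCast]
        rw [h2, ← ENNReal.rpow_mul, mul_neg]
        refine rpow_le_add (by positivity) ?_
        push_cast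
        have h3 : (p : ℝ) * (2 * c' / (m * (t.den : ℝ))) = (2 / m) * (c' * (p / t.den)) := by
          field_simp
        have h4 : 2 * c / (m : ℝ) = (2 / m) * c := by ring
        rw [h3, h4]
        refine mul_le_mul_of_nonneg_left ?_ (by positivity)
        have h5 : c' * (p / t.den) ≤ 1 * (p / t.den) :=
          mul_le_mul_of_nonneg_right hc'.le (by positivity)
        linarith
      refine (setLIntegral_mono' measurableSet_ball fun y _ => h1 y).trans_lt ?_
      rw [lintegral_add_left measurable_const]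
      refine ENNReal.add_lt_top.2 ⟨?_, hfin⟩
      rw [lintegral_const, Measure.restrict_apply_univ, one_mul]
      exact measure_ball_lt_top
    · refine ⟨1, one_pos, ?_⟩
      have hcont : Continuous fun y : ι → ℂ => eval y (f ^ p) := MvPolynomial.continuous_eval _
      obtain ⟨M, hM⟩ := (isCompact_closedBall x 1).exists_bound_of_continuousOn
        (f := fun y => eval y (f ^ p)) hcont.continuousOn
      have hs : 0 ≤ -(2 * c' / ((m * t.den : ℕ) : ℝ)) := by
        rw [neg_nonneg]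
        refine div_nonpos_of_nonpos_of_nonneg (by linarith) (Nat.cast_nonneg _)
      have h1 : ∀ y ∈ Metric.ball x 1, ‖eval y (f ^ p)‖ₑ ^ (-(2 * c' / ((m * t.den : ℕ) : ℝ)))
          ≤ ENNReal.ofReal M ^ (-(2 * c' / ((m * t.den : ℕ) : ℝ))) := by
        intro y hy
        refine ENNReal.rpow_le_rpow ?_ hs
        rw [← ofReal_norm]
        exact ENNReal.ofReal_le_ofReal (hM y (Metric.ball_subset_closedBall hy))
      refine (setLIntegral_mono' measurableSet_ball h1).trans_lt ?_
      rw [lintegral_const, Measure.restrict_apply_univ]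
      exact ENNReal.mul_lt_top (ENNReal.rpow_lt_top_of_nonneg hs ENNReal.ofReal_ne_top)
        measure_ball_lt_top

/-- Weights of the monomials of a power. -/
theorem weight_pow {a : ι → ℕ} {f : MvPolynomial ι ℂ} {w : ℕ}
    (h : ∀ α ∈ f.support, w ≤ ∑ i, a i * α i) (p : ℕ) :
    ∀ β ∈ (f ^ p).support, p * w ≤ ∑ i, a i * β i := by
  classical
  induction p with
  | zero =>
    intro β _
    rw [zero_mul]
    exact Nat.zero_le _
  | succ p ih =>
    intro β hβ
    rw [pow_succ] at hβ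
    obtain ⟨γ, hγ, δ, hδ, rfl⟩ := Finset.mem_add.1 (support_mul _ _ hβ)
    have h1 := ih γ hγ
    have h2 := h δ hδ
    have h3 : ∑ i, a i * (γ + δ) i = ∑ i, a i * γ i + ∑ i, a i * δ i := by
      rw [← Finset.sum_add_distrib]
      exact Finset.sum_congr rfl fun i _ => by rw [Finsupp.add_apply, mul_add]
    rw [h3, add_mul, one_mul]
    exact add_le_add h1 h2

/-- A klt pair satisfies the strict inequalities for all monomial valuations. -/
theorem weights_of_klt {S : Set (Set ι)} {m : ℕ} (hm : 1 ≤ m) {f : MvPolynomial ι ℂ}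
    (h : IsKlt S m f) : ∃ p q : ℕ, 1 ≤ q ∧ q < p ∧ ∀ a : ι → ℕ, {i | a i ≠ 0} ∈ S →
      ∃ α ∈ f.support, p * ∑ i, a i * α i ≤ q * (m * ∑ i, a i) := by
  obtain ⟨p, q, hq, hqp, hlc⟩ := lc_of_klt hm h
  refine ⟨p, q, hq, hqp, fun a ha => ?_⟩
  obtain ⟨β, hβ, hle⟩ := weights_of_lc (Nat.mul_pos hm hq) hlc a ha
  have hne : f.support.Nonempty := by
    rw [Finset.nonempty_iff_ne_empty]
    intro h0
    rw [support_eq_empty] at h0
    rw [h0, zero_pow (by omega)] at hβ
    simp at hβ
  obtain ⟨α, hα, hmin⟩ := Finset.exists_min_image f.support (fun α => ∑ i, a i * α i) hne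
  refine ⟨α, hα, ?_⟩
  have h1 := weight_pow hmin p β hβ
  calc p * ∑ i, a i * α i ≤ ∑ i, a i * β i := h1
    _ ≤ _ := hle
    _ = _ := by ring

end Q47.GA
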