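import Pool.Agent.Q47.GA.Semi
import Pool.Agent.Q47.GEO.Final

/-!
# Sections of line bundles of a given numerical class
-/

set_option autoImplicit false

namespace Q47.GA

open Pool.Agent.W594.SYZ2 Pool.Agent.W594.SYZ2.TQ Pool.Agent.TH735.AQ MvPolynomial Q47.KN Q47.EB
open Q47.TB Q47.TK
open Q47.MM (nef_of_section Inv inv_of_chern roots exists_tests Refls nef_of_roots)

variable {V : Type*} [NormedAddCommGroup V] [NormedSpace ℂ V] {Γ : Subgroup (V ≃ᵃ[ℂ] V)}
  {ι : Type*} [Fintype ι] {n : ℕ}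

/-- The semigroup of the pairs `(k, α)` such that `∑ α_i D_i` is of the class of `k d` on the
fibres and the difference is nef. -/
def Q (u : ι → Fin n → ℤ) (d : ι → ℤ) (H : V → V → ℂ) (Hc : ι → V → V → ℂ) :
    Set (ℕ × (ι → ℕ)) :=
  {p | LinEquiv u (fun i => (p.2 i : ℤ)) (fun i => p.1 * d i) ∧
    IsNefForm fun v w => (p.1 : ℂ) * H v w - ∑ i, (p.2 i : ℂ) * Hc i v w}

omit [NormedAddCommGroup V] [NormedSpace ℂ V] in
/-- Sums of elements of the semigroup. -/
theorem Q_comb {u : ι → Fin n → ℤ} {d : ι → ℤ} {H : V → V → ℂ}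
    {Hc : ι → V → V → ℂ} {p : ℕ} {T : Fin p → ℕ} {a : Fin p → ι → ℕ}
    (hQ : ∀ l, (T l, a l) ∈ Q u d H Hc) (μ : Fin p → ℕ) :
    ((∑ l, μ l * T l), fun i => ∑ l, μ l * a l i) ∈ Q u d H Hc := by
  choose q hq using fun l => (hQ l).1
  refine ⟨⟨fun k => ∑ l, μ l * q l k, fun i => ?_⟩, fun v => ?_⟩
  · push_cast
    have h1 : ∀ l, (a l i : ℤ) = (T l : ℤ) * d i + ∑ k, q l k * u i k := fun l => hq l i
    simp only [h1, mul_add, Finset.sum_add_distrib, Finset.sum_mul, Finset.mul_sum]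
    congr 1
    · exact Finset.sum_congr rfl fun l _ => by ring
    · rw [Finset.sum_comm]
      exact Finset.sum_congr rfl fun l _ => Finset.sum_congr rfl fun k _ => by ring
  · have h1 : ((∑ l, μ l * T l : ℕ) : ℂ) * H v v
        - ∑ i, ((∑ l, μ l * a l i : ℕ) : ℂ) * Hc i v v
        = ∑ l, ((μ l : ℝ) : ℂ) * ((T l : ℂ) * H v v - ∑ i, (a l i : ℂ) * Hc i v v) := by
      push_cast
      simp only [mul_sub, Finset.sum_sub_distrib, Finset.sum_mul, Finset.mul_sum]
      congr 1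
      · exact Finset.sum_congr rfl fun l _ => by ring
      · rw [Finset.sum_comm]
        exact Finset.sum_congr rfl fun l _ => Finset.sum_congr rfl fun k _ => by ring
    beta_reduce
    rw [h1, Complex.re_sum]
    refine Finset.sum_nonneg fun l _ => ?_
    rw [Complex.re_ofReal_mul]
    exact mul_nonneg (Nat.cast_nonneg _) ((hQ l).2 v)

/-- The class of a coefficient. -/
theorem nef_coeff [FiniteDimensional ℂ V] (hΓ : IsTorusQuotient Γ) {u : ι → Fin n → ℤ}
    {c : ι → LineBundle Γ} {HB : V → V → ℂ} {Hc : ι → V → V → ℂ}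
    (hc : ∀ i, IsChernForm (c i) (Hc i)) {B : LineBundle Γ} (hB : IsChernForm B HB) {d : ι → ℤ}
    {G : V → MvPolynomial ι ℂ} (hG : IsSection u c d B.e G) {v : V} {α : ι →₀ ℕ}
    (hα : coeff α (G v) ≠ 0) : IsNefForm fun v w => HB v w - ∑ i, (α i : ℂ) * Hc i v w := by
  have hch := chern_tw hB hc 1 fun i => α i
  have hn := nef_of_section hΓ hch (coeff_section hG α) ⟨v, hα⟩
  intro w
  have h1 := hn w
  simp only [Nat.cast_one, one_mul] at h1
  exact h1

/-- The monomials of a section. -/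
theorem mem_Q [FiniteDimensional ℂ V] (hΓ : IsTorusQuotient Γ) {u : ι → Fin n → ℤ}
    {c : ι → LineBundle Γ} {H : V → V → ℂ} {Hc : ι → V → V → ℂ}
    (hc : ∀ i, IsChernForm (c i) (Hc i)) {k : ℕ} {B : LineBundle Γ}
    (hB : IsChernForm B fun v w => (k : ℂ) * H v w) {d : ι → ℤ}
    {G : V → MvPolynomial ι ℂ} (hG : IsSection u c (fun i => k * d i) B.e G) {v : V} {α : ι →₀ ℕ}
    (hα : coeff α (G v) ≠ 0) : (k, (α : ι → ℕ)) ∈ Q u d H Hc :=
  ⟨hG.deg v α (mem_support_iff.2 hα), nef_coeff hΓ hc hB hG hα⟩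

/-- The classes of the coefficients are near the cone. -/
theorem mem_near [FiniteDimensional ℂ V] (hΓ : IsTorusQuotient Γ) {u : ι → Fin n → ℤ}
    {c : ι → LineBundle Γ} {H HA : V → V → ℂ} {Hc : ι → V → V → ℂ}
    (hc : ∀ i, IsChernForm (c i) (Hc i)) {X Y : Refls Γ → V}
    {tL tA : Refls Γ → ℤ} {tc : ι → Refls Γ → ℤ} (htL : ∀ g, (H (X g) (Y g)).im = tL g)
    (htc : ∀ i g, (Hc i (X g) (Y g)).im = tc i g) (htA : ∀ g, (HA (X g) (Y g)).im = tA g)
    (ht : ∀ H' : V → V → ℂ, IsHermitian H' →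
        ((∀ a ∈ roots Γ, 0 ≤ (H' a a).re) ↔ ∀ g, 0 ≤ (H' (X g) (Y g)).im))
    {d b : ι → ℤ} {ε : ℕ} (hε1 : ∀ i, |b i| ≤ ε) (hε2 : ∀ g, |tA g - ∑ i, b i * tc i g| ≤ ε)
    {k : ℕ} {B : LineBundle Γ} (hB : IsChernForm B fun v w => (k : ℂ) * H v w + HA v w)
    {G : V → MvPolynomial ι ℂ}
    (hG : IsSection u c (fun i => k * d i + b i) B.e G) {v : V} {α : ι →₀ ℕ}
    (hα : coeff α (G v) ≠ 0) :
    ∃ x : ℤ × (Fin n → ℤ), x.1 = k ∧ (∀ i, (α i : ℤ) = al u d x i + b i) ∧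
      ∀ j, -(ε : ℤ) ≤ tst u d tL tc x j := by
  obtain ⟨m, hm⟩ := hG.deg v α (mem_support_iff.2 hα)
  have hx : ∀ i, (α i : ℤ) = al u d ((k : ℤ), m) i + b i := by
    intro i
    have h1 : (α i : ℤ) = k * d i + b i + ∑ l, m l * u i l := hm i
    rw [h1, al]
    ring
  refine ⟨((k : ℤ), m), rfl, hx, ?_⟩
  have hch := chern_tw hB hc 1 fun i => α i
  have hn := nef_of_section hΓ hch (coeff_section hG α) ⟨v, hα⟩
  have h2 := (ht _ hch.1).1 fun a _ => hn a
  rintro (i | g)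
  · rw [tst_inl]
    have h3 := abs_le.1 (hε1 i)
    have h4 := hx i
    have h5 : (0 : ℤ) ≤ α i := Int.natCast_nonneg _
    linarith [h3.2]
  · rw [tst_inr]
    have h3 := h2 g
    have h4 : (((1 : ℕ) : ℂ) * ((k : ℂ) * H (X g) (Y g) + HA (X g) (Y g)
        - ∑ i, (α i : ℂ) * Hc i (X g) (Y g))).im
        = k * tL g + tA g - ∑ i, (α i : ℝ) * tc i g := by
      have e1 : ∀ (j : ℕ) (z : ℂ), ((j : ℂ) * z).im = j * z.im := fun j z => by
        have : ((j : ℕ) : ℂ) = ((j : ℝ) : ℂ) := by push_cast; rfl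
        rw [this, Complex.im_ofReal_mul]
      rw [Nat.cast_one, one_mul, Complex.sub_im, Complex.add_im, Complex.im_sum, e1, htL, htA]
      simp only [e1, htc]
    have h5 : (0 : ℝ) ≤ k * tL g + tA g - ∑ i, (α i : ℝ) * tc i g := by
      rw [← h4]
      exact h3
    have h6 : (0 : ℤ) ≤ k * tL g + tA g - ∑ i, (α i : ℤ) * tc i g := by exact_mod_cast h5
    simp only [hx, add_mul, Finset.sum_add_distrib] at h6
    have h7 := abs_le.1 (hε2 g)
    change -(ε : ℤ) ≤ (k : ℤ) * tL g - _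
    linarith [h7.2]

theorem herm_add {H H' : V → V → ℂ} (h : IsHermitian H) (h' : IsHermitian H') :
    IsHermitian fun v w => H v w + H' v w := by
  refine ⟨fun a v w => ?_, fun a v w => ?_, fun v w => ?_⟩
  · simp only [h.add_left, h'.add_left]
    ring
  · simp only [h.smul_left, h'.smul_left]
    ring
  · simp only [map_add, ← h.symm, ← h'.symm]

/-- The Chern form of the sum with the flat twist. -/
theorem chern_LEP {L E P : LineBundle Γ} {H HE : V → V → ℂ} (hL : IsChernForm L H)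
    (hE : IsChernForm E HE) (hP : IsChernForm P fun _ _ => 0) (k : ℕ) :
    IsChernForm ((tensor (tensor L E) P).pow k) fun v w => (k : ℂ) * (H v w + HE v w) := by
  have h1 := chern_tensor hL hE 1
  have h2 := chern_tensor h1 hP 1
  have h3 := chern_pow h2 k
  have e1 : (tensor ((tensor (L.pow 1) E).pow 1) P).pow k = (tensor (tensor L E) P).pow k := by
    refine lb_ext fun γ v => ?_
    change ((L.e γ v ^ 1 * E.e γ v) ^ 1 * P.e γ v) ^ k = (L.e γ v * E.e γ v * P.e γ v) ^ k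
    rw [pow_one, pow_one]
  rw [e1] at h3
  have e2 : (fun v w => (k : ℂ) * (((1 : ℕ) : ℂ) * (((1 : ℕ) : ℂ) * H v w + HE v w) + 0))
      = fun v w => (k : ℂ) * (H v w + HE v w) := by
    funext v w
    push_cast
    ring
  rw [← e2]
  exact h3

variable [FiniteDimensional ℂ V]

/-- The theorem. -/
theorem ga (hΓ : IsTorusQuotient Γ) {ρ : V → ℂ} (hρ : IsRamification Γ ρ)
    {u : ι → Fin n → ℤ} {S : Set (Set ι)} (hS : IsSmoothFan u S)
    {c : ι → LineBundle Γ} {Hc : ι → V → V → ℂ} (hc : ∀ i, IsChernForm (c i) (Hc i))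
    {m : ℕ} (hm : 1 ≤ m) {d : ι → ℤ} {F : V → MvPolynomial ι ℂ} {L : LineBundle Γ}
    {H : V → V → ℂ} (hL : IsChernForm L H) (hF : TB.IsLogPluricanonical u c m ρ d F L)
    (T₀ : Finset (ι →₀ ℕ)) (hT : ∀ α ∈ T₀, ∃ v, coeff α (F v) ≠ 0) {p₀ q₀ : ℕ} (hqp : q₀ < p₀)
    (hw : ∀ a : ι → ℕ, {i | a i ≠ 0} ∈ S → ∃ α ∈ T₀, p₀ * ∑ i, a i * α i ≤ q₀ * (m * ∑ i, a i))
    {k₀ : ℕ} (hk₀ : 1 ≤ k₀) {β₀ : ι → ℕ}
    (hβ₀ : LinEquiv u (fun i => (β₀ i : ℤ)) fun i => k₀ * (d i - m))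
    {b : ι → ℤ} {E : LineBundle Γ} {HE : V → V → ℂ} (hE : IsChernForm E HE)
    (hN : IsNef u S Hc b HE) {D : ι → ℤ} (hD : D = fun i => d i - m + b i)
    {H' : V → V → ℂ} (hH' : H' = fun v w => H v w + HE v w) :
    ∃ P : LineBundle Γ, IsChernForm P (fun _ _ => 0) ∧
      ∃ (p : ℕ) (T : Fin p → ℕ) (a : Fin p → ι → ℕ),
        (∀ l, 1 ≤ T l ∧ (T l, a l) ∈ Q u D H' Hc) ∧
        (∀ k α, (k, α) ∈ Q u D H' Hc →
          ∃ μ : Fin p → ℕ, k = ∑ l, μ l * T l ∧ ∀ i, α i = ∑ l, μ l * a l i) ∧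
        (∃ N : ℕ, 1 ≤ N ∧ ∀ k α, (k, α) ∈ Q u D H' Hc → ∀ v₁, ∃ f : V → ℂ, f v₁ ≠ 0 ∧
          IsSection u c (fun i => (N * k : ℕ) * D i)
            (fun γ v => (L.e γ v * E.e γ v * P.e γ v) ^ (N * k))
            fun v => monomial (Finsupp.equivFunOnFinite.symm fun i => N * α i) (f v)) ∧
        ∀ (A : LineBundle Γ) (HA : V → V → ℂ), IsChernForm A HA → ∀ b' : ι → ℤ,
          ∃ W : Finset (ℤ × (ι → ℤ)), ∀ (k : ℕ) (B : LineBundle Γ),
            (IsChernForm B fun v w => (k : ℂ) * H' v w + HA v w) →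
            ∀ G : V → MvPolynomial ι ℂ, IsSection u c (fun i => k * D i + b' i) B.e G →
              ∀ v α, coeff α (G v) ≠ 0 → ∃ w ∈ W, ∃ μ : Fin p → ℕ,
                (k : ℤ) = ∑ l, (μ l : ℤ) * T l + w.1 ∧
                ∀ i, (α i : ℤ) = ∑ l, (μ l : ℤ) * a l i + w.2 i := by
  classical
  have := finite_Lin hΓ
  have hRf : Fintype (Refls Γ) := Fintype.ofFinite _
  obtain ⟨P, hP, hsemi⟩ := semi hΓ hρ hS hc hm hL hF T₀ hT hqp hw hk₀ hβ₀ hE hN
  refine ⟨P, flat_chern hP, ?_⟩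
  obtain ⟨X, Y, tL₀, tc, htL₀, htc, htA, ht⟩ := exists_tst hΓ hL hc
  obtain ⟨tE, htE⟩ := htA E HE hE
  let tL : Refls Γ → ℤ := fun g => tL₀ g + tE g
  have htL : ∀ g, (H' (X g) (Y g)).im = tL g := by
    intro g
    rw [hH']
    change (H (X g) (Y g) + HE (X g) (Y g)).im = ((tL₀ g + tE g : ℤ) : ℝ)
    rw [Complex.add_im, htL₀, htE]
    push_cast
    rfl
  have hherm : IsHermitian H' := by
    rw [hH']
    exact herm_add hL.1 hE.1
  obtain ⟨B, hB, hBg, hBW⟩ := gens (tst u D tL tc) (tst_inj hS (d := D) tL tc)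
  -- semiampleness of the elements of the cone
  have hx : ∀ x : ℤ × (Fin n → ℤ), 0 < x.1 → (∀ j, 0 ≤ tst u D tL tc x j) →
      IsNefForm (fun v w => (x.1.toNat : ℂ) * H' v w
        - ∑ i, (((al u D x i).toNat : ℕ) : ℂ) * Hc i v w) ∧ ∃ N : ℕ, 1 ≤ N ∧
          GG ((lb (tensor (tensor L E) P) c x.1.toNat fun i => (al u D x i).toNat).pow N) := by
    intro x hx0 hxj
    have hK₀1 : (x.1.toNat : ℤ) = x.1 := Int.toNat_of_nonneg hx0.le
    have hK₀0 : 1 ≤ x.1.toNat := by omega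
    have hb1 : ∀ i, ((al u D x i).toNat : ℤ) = al u D x i := fun i =>
      Int.toNat_of_nonneg (hxj (Sum.inl i))
    have hcls : LinEquiv u (fun i => ((al u D x i).toNat : ℤ))
        (fun i => x.1.toNat * (d i - m + b i)) := by
      refine ⟨x.2, fun i => ?_⟩
      change ((al u D x i).toNat : ℤ) = x.1.toNat * (d i - m + b i) + ∑ k, x.2 k * u i k
      rw [hb1 i, al, hK₀1, hD]
    have hr := hsemi x.1.toNat (fun i => (al u D x i).toNat) hK₀0 hcls fun a ha => by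
      have h1 := (ht _ (form_herm (u := u) (d := D) hherm (fun i => (hc i).1) x)).2
        (fun g => by
          have h1 := hxj (Sum.inr g)
          rw [tst_inr] at h1
          have h2 : (form u D H' Hc x (X g) (Y g)).im
              = x.1 * tL g - ∑ i, (al u D x i : ℝ) * tc i g := by
            rw [form, Complex.sub_im, Complex.im_sum, im_int_mul, htL]
            simp only [im_int_mul, htc]
          rw [h2]
          exact_mod_cast h1) a ha
      have h3 : form u D H' Hc x a a = ((x.1.toNat : ℕ) : ℂ) * (H a a + HE a a)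
          - ∑ i, (((al u D x i).toNat : ℕ) : ℂ) * Hc i a a := by
        rw [form, hH']
        congr 1
        · congr 1
          exact_mod_cast congrArg (Int.cast : ℤ → ℂ) hK₀1.symm
        · refine Finset.sum_congr rfl fun i _ => ?_
          congr 1
          exact_mod_cast congrArg (Int.cast : ℤ → ℂ) (hb1 i).symm
      rw [h3] at h1
      exact h1
    rw [hH']
    exact hr
  have hB0 : ∀ b ∈ B, b.1 = 0 → b = 0 := fun b hb h =>
    eq_zero_of_nonneg hS h fun i => (hB b hb).2 (Sum.inl i)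
  obtain ⟨p, x, hxm, hxs⟩ := Q47.GEO.enum B
  have hpos : ∀ l, 0 < (x l).1 := fun l =>
    lt_of_le_of_ne (hB _ (hxm l).1).1 fun h => (hxm l).2 (hB0 _ (hxm l).1 h.symm)
  let T : Fin p → ℕ := fun l => (x l).1.toNat
  let a : Fin p → ι → ℕ := fun l i => (al u D (x l) i).toNat
  have hTz : ∀ l, (T l : ℤ) = (x l).1 := fun l => Int.toNat_of_nonneg (hpos l).le
  have haz : ∀ l i, (a l i : ℤ) = al u D (x l) i := fun l i =>
    Int.toNat_of_nonneg ((hB _ (hxm l).1).2 (Sum.inl i))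
  have hcomb : ∀ (μ : Fin p → ℕ) (i : ι), al u D (∑ l, μ l • x l) i
      = ∑ l, (μ l : ℤ) * al u D (x l) i := fun μ i => al_comb u D Finset.univ μ x i
  have hfst : ∀ μ : Fin p → ℕ, (∑ l, μ l • x l).1 = ∑ l, (μ l : ℤ) * T l := by
    intro μ
    rw [Prod.fst_sum]
    refine Finset.sum_congr rfl fun l _ => ?_
    rw [Prod.smul_fst, nsmul_eq_mul, hTz]
  have hQ : ∀ l, (T l, a l) ∈ Q u D H' Hc := by
    intro l
    refine ⟨⟨(x l).2, fun i => ?_⟩, (hx _ (hpos l) (hB _ (hxm l).1).2).1⟩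
    change (a l i : ℤ) = (T l : ℤ) * D i + ∑ k, (x l).2 k * u i k
    rw [haz, hTz, al]
  have hgen : ∀ k α, (k, α) ∈ Q u D H' Hc →
      ∃ μ : Fin p → ℕ, k = ∑ l, μ l * T l ∧ ∀ i, α i = ∑ l, μ l * a l i := by
    rintro k α ⟨⟨q, hq⟩, hn⟩
    have e1 : ∀ i, al u D ((k : ℤ), q) i = α i := fun i => (hq i).symm
    obtain ⟨μ, hμ⟩ := hBg ((k : ℤ), q) (Int.natCast_nonneg _) (by
      rintro (i | g)
      · rw [tst_inl, e1]
        exact Int.natCast_nonneg _
      · have h1 := (ht _ (form_herm (u := u) (d := D) hherm (fun i => (hc i).1)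
          ((k : ℤ), q))).1 (fun a _ => by
            have h2 := hn a
            change 0 ≤ ((((k : ℤ)) : ℂ) * H' a a
              - ∑ i, ((al u D ((k : ℤ), q) i : ℤ) : ℂ) * Hc i a a).re
            simp only [e1]
            push_cast
            exact h2) g
        have h2 : (form u D H' Hc ((k : ℤ), q) (X g) (Y g)).im
            = ((k : ℤ) : ℝ) * tL g - ∑ i, (al u D ((k : ℤ), q) i : ℝ) * tc i g := by
          rw [form, Complex.sub_im, Complex.im_sum, im_int_mul, htL]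
          simp only [im_int_mul, htc]
        rw [h2] at h1
        rw [tst_inr]
        exact_mod_cast h1)
    rw [hxs μ] at hμ
    refine ⟨fun l => μ (x l), ?_, fun i => ?_⟩
    · have h1 : (k : ℤ) = ∑ l, (μ (x l) : ℤ) * T l := by
        have h1 := congrArg Prod.fst hμ
        rw [hfst] at h1
        exact h1
      exact_mod_cast h1
    · have h1 := e1 i
      rw [hμ, hcomb] at h1
      simp only [← haz] at h1
      exact_mod_cast h1.symm
  refine ⟨p, T, a, fun l => ⟨by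
    have h1 := hpos l
    have h2 := hTz l
    omega, hQ l⟩, hgen, ?_, fun A HA hA b' => ?_⟩
  · obtain ⟨N, hN, h5⟩ := Q47.GEO.secs_of_gens (s := 0) (c := c)
      (L := fun _ => tensor (tensor L E) P) (T := fun l _ => T l) (a := a) fun l => by
      obtain ⟨E', hE', hg⟩ := (hx _ (hpos l) (hB _ (hxm l).1).2).2
      refine ⟨E', hE', fun v₀ => ?_⟩
      obtain ⟨f, hf, hf0⟩ := hg v₀
      refine ⟨f, hf0, hf.holo, fun γ v => ?_⟩
      rw [hf.eq γ v]
      congr 1
      change (lb (tensor (tensor L E) P) c (T l) (a l)).e γ v ^ E' = _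
      rw [lb_e, Q47.GEO.eb, Fin.prod_univ_one]
    refine ⟨N, hN, fun k α hα v₁ => ?_⟩
    obtain ⟨μ, hμ1, hμ2⟩ := hgen k α hα
    obtain ⟨f, hf0, hfd, hfe⟩ := h5 μ v₁
    have e2 : α = fun i => ∑ l, μ l * a l i := funext hμ2
    refine ⟨f, hf0, ?_⟩
    have h6 := Q47.GEO.isSection_eb (s := 0) (u := u) (d := fun _ => D) (c := c)
      (L := fun _ => tensor (tensor L E) P) (t := fun _ => k) (α := α)
      (by simpa using hα.1) N hfd fun γ v => by
        rw [hfe γ v, ← e2, hμ1]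
    have e3 : (fun i => (N : ℤ) * ∑ j : Fin 1, ((k : ℕ) : ℤ) * D i)
        = fun i => (N * k : ℕ) * D i := by
      funext i
      rw [Fin.sum_univ_one]
      push_cast
      ring
    have e4 : (fun (γ : Γ) (v : V) => (∏ j : Fin 1, (tensor (tensor L E) P).e γ v ^ k) ^ N)
        = fun γ v => (L.e γ v * E.e γ v * P.e γ v) ^ (N * k) := by
      funext γ v
      rw [Fin.prod_univ_one, ← pow_mul, mul_comm k N]
      rfl
    rw [← e3, ← e4]
    exact h6
  · obtain ⟨tA, htA'⟩ := htA A HA hA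
    let ε : ℕ := ∑ i, (b' i).natAbs + ∑ g, (tA g - ∑ i, b' i * tc i g).natAbs
    have hε1 : ∀ i, |b' i| ≤ ε := by
      intro i
      have h1 : (b' i).natAbs ≤ ∑ i, (b' i).natAbs :=
        Finset.single_le_sum (f := fun i => (b' i).natAbs) (fun _ _ => Nat.zero_le _)
          (Finset.mem_univ i)
      rw [Int.abs_eq_natAbs]
      exact_mod_cast h1.trans (Nat.le_add_right _ _)
    have hε2 : ∀ g, |tA g - ∑ i, b' i * tc i g| ≤ ε := by
      intro g
      have h1 : (tA g - ∑ i, b' i * tc i g).natAbs ≤ ∑ g, (tA g - ∑ i, b' i * tc i g).natAbs :=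
        Finset.single_le_sum (f := fun g => (tA g - ∑ i, b' i * tc i g).natAbs)
          (fun _ _ => Nat.zero_le _) (Finset.mem_univ g)
      rw [Int.abs_eq_natAbs]
      exact_mod_cast h1.trans (Nat.le_add_left _ _)
    obtain ⟨W, -, hWg⟩ := hBW ε
    refine ⟨W.image fun w => (w.1, fun i => al u D w i + b' i), fun k M hM G hG v α hα => ?_⟩
    obtain ⟨y, hy1, hy2, hy3⟩ := mem_near hΓ hc htL htc htA' ht hε1 hε2 hM hG hα
    obtain ⟨w, hw, μ, hμ⟩ := hWg y (by rw [hy1]; exact Int.natCast_nonneg _) hy3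
    rw [hxs μ] at hμ
    refine ⟨_, Finset.mem_image_of_mem _ hw, fun l => μ (x l), ?_, fun i => ?_⟩
    · rw [← hy1, hμ, Prod.fst_add, hfst]
    · rw [hy2 i, hμ, al_add, hcomb]
      simp only [haz]
      ring

end Q47.GA
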