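import Pool.Agent.Q47.GA.Bun
import Pool.Agent.Q47.GA.Hull

/-!
# Semiampleness up to a flat twist
-/

set_option autoImplicit false

namespace Q47.GA

open Pool.Agent.W594.SYZ2 Pool.Agent.W594.SYZ2.TQ Pool.Agent.TH735.AQ Q47.EB Q47.TB Q47.TK
open Q47.KN MvPolynomial
open Q47.MM (Inv inv_of_chern IsFixed roots nef_of_roots)

variable {V : Type*} [NormedAddCommGroup V] [NormedSpace ℂ V] {Γ : Subgroup (V ≃ᵃ[ℂ] V)}

theorem flat_pot {P : LineBundle Γ} (hP : IsFlat P) : IsPot P (fun _ _ => 0) fun _ => 0 := by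
  refine ⟨differentiable_const 0, fun γ v => ?_⟩
  rw [hP.2 γ v]
  simp

theorem herm_zero : IsHermitian fun _ _ : V => (0 : ℂ) :=
  ⟨fun _ _ _ => (add_zero _).symm, fun _ _ _ => (mul_zero _).symm, fun _ _ => by simp⟩

theorem flat_chern {P : LineBundle Γ} (hP : IsFlat P) : IsChernForm P fun _ _ => 0 :=
  ⟨herm_zero, _, flat_pot hP⟩

/-- The flat twist. -/
theorem exists_flat [FiniteDimensional ℂ V] (hΓ : IsTorusQuotient Γ) {E₀ : LineBundle Γ}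
    {H₀ : V → V → ℂ} {F₀ : V → ℂ} (hH₀ : IsHermitian H₀) (hpot₀ : IsPot E₀ H₀ F₀) :
    ∃ P : LineBundle Γ, IsFlat P ∧ ∀ b ∈ latt Γ, b ∈ ker hH₀ →
      (chi P (fun _ => 0) b * chi E₀ F₀ b) ^ Nat.card (Lin Γ) = 1 := by
  have := finite_Lin hΓ
  obtain ⟨ℓ, hℓ, hχ⟩ := exists_inv_real hΓ hH₀ hpot₀
  set M := Nat.card (Lin Γ) with hM
  have hM0 : (M : ℝ) ≠ 0 := by
    have : M ≠ 0 := Nat.card_pos.ne'
    exact_mod_cast this
  let ℓ' : V →ₗ[ℝ] ℝ := (-(M : ℝ)⁻¹) • ℓ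
  have hℓ'v : ∀ v, ℓ' v = -(M : ℝ)⁻¹ * ℓ v := fun v => rfl
  have hℓ' : ∀ γ ∈ Γ, ∀ v, ℓ' (γ.linear v) = ℓ' v := fun γ hγ v => by
    rw [hℓ'v, hℓ'v, hℓ γ hγ]
  refine ⟨flat ℓ' hℓ', flat_isFlat _ _, fun b hb hbK => ?_⟩
  have h1 : chi (flat ℓ' hℓ') (fun _ => 0) b = Complex.exp ((ℓ' b : ℂ) * Complex.I) := by
    rw [chi_eq hb, TQ.tw, sub_self, Complex.exp_zero, mul_one]
    change Complex.exp ((ℓ' (((tr b hb : Γ) : V ≃ᵃ[ℂ] V) 0) : ℂ) * Complex.I) = _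
    rw [tr_apply, add_zero]
  rw [mul_pow, ← hχ b hb hbK, h1, ← Complex.exp_nat_mul, ← Complex.exp_add, hℓ'v]
  have h2 : (M : ℂ) * (((-(M : ℝ)⁻¹ * ℓ b : ℝ) : ℂ) * Complex.I) + (ℓ b : ℂ) * Complex.I = 0 := by
    have h3 : (M : ℂ) ≠ 0 := by exact_mod_cast hM0
    push_cast
    field_simp
    ring
  rw [h2, Complex.exp_zero]

variable {ι : Type*} [Fintype ι] {n : ℕ}

/-- The family of the basic line bundles. -/
noncomputable def DD (L E P : LineBundle Γ) (c : ι → LineBundle Γ) : Fin 3 ⊕ ι → LineBundle Γ :=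
  Sum.elim ![L, E, P] c

/-- Their classes. -/
def DH {V : Type*} (H HE : V → V → ℂ) (Hc : ι → V → V → ℂ) : Fin 3 ⊕ ι → V → V → ℂ :=
  Sum.elim ![H, HE, fun _ _ => 0] Hc

/-- Their potentials. -/
def DF {V : Type*} (F FE : V → ℂ) (G : ι → V → ℂ) : Fin 3 ⊕ ι → V → ℂ :=
  Sum.elim ![F, FE, fun _ => 0] G

/-- Exponents. -/
def nM (k : ℤ) (α : ι → ℤ) : Fin 3 ⊕ ι → ℤ := Sum.elim (fun _ => k) fun i => -α i

def nA (m : ℤ) (α : ι → ℤ) : Fin 3 ⊕ ι → ℤ := Sum.elim ![1, 0, 0] fun i => m - α i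

def nE (ν : ι → ℤ) : Fin 3 ⊕ ι → ℤ := Sum.elim ![0, 1, 0] fun i => -ν i

def nP : Fin 3 ⊕ ι → ℤ := Sum.elim ![0, 0, 1] fun _ => 0

omit [Fintype ι] in
theorem DD_pot {L E P : LineBundle Γ} {c : ι → LineBundle Γ} {H HE : V → V → ℂ}
    {Hc : ι → V → V → ℂ} {F FE : V → ℂ} {G : ι → V → ℂ} (hL : IsPot L H F) (hE : IsPot E HE FE)
    (hP : IsFlat P) (hc : ∀ i, IsPot (c i) (Hc i) (G i)) (k : Fin 3 ⊕ ι) :
    IsPot (DD L E P c k) (DH H HE Hc k) (DF F FE G k) := by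
  rcases k with k | i
  · fin_cases k
    · exact hL
    · exact hE
    · exact flat_pot hP
  · exact hc i

omit [Fintype ι] in
theorem DH_herm {H HE : V → V → ℂ} {Hc : ι → V → V → ℂ} (hL : IsHermitian H)
    (hE : IsHermitian HE) (hc : ∀ i, IsHermitian (Hc i)) (k : Fin 3 ⊕ ι) :
    IsHermitian (DH H HE Hc k) := by
  rcases k with k | i
  · fin_cases k
    · exact hL
    · exact hE
    · exact herm_zero
  · exact hc i

theorem gH_M {V : Type*} (H HE : V → V → ℂ) (Hc : ι → V → V → ℂ) (k : ℤ) (α : ι → ℤ) (v w : V) :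
    gH (DH H HE Hc) (nM k α) v w = k * (H v w + HE v w) - ∑ i, (α i : ℂ) * Hc i v w := by
  simp only [gH, DH, nM, Fintype.sum_sum_type, Fin.sum_univ_three, Sum.elim_inl, Sum.elim_inr,
    Matrix.cons_val_zero, Matrix.cons_val_one, Matrix.cons_val]
  push_cast
  simp only [neg_mul, Finset.sum_neg_distrib]
  ring

theorem gH_A {V : Type*} (H HE : V → V → ℂ) (Hc : ι → V → V → ℂ) (m : ℤ) (α : ι → ℤ) (v w : V) :
    gH (DH H HE Hc) (nA m α) v w = H v w + ∑ i, ((m - α i : ℤ) : ℂ) * Hc i v w := by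
  simp only [gH, DH, nA, Fintype.sum_sum_type, Fin.sum_univ_three, Sum.elim_inl, Sum.elim_inr,
    Matrix.cons_val_zero, Matrix.cons_val_one, Matrix.cons_val]
  push_cast
  ring

theorem gH_E {V : Type*} (H HE : V → V → ℂ) (Hc : ι → V → V → ℂ) (ν : ι → ℤ) (v w : V) :
    gH (DH H HE Hc) (nE ν) v w = HE v w - ∑ i, (ν i : ℂ) * Hc i v w := by
  simp only [gH, DH, nE, Fintype.sum_sum_type, Fin.sum_univ_three, Sum.elim_inl, Sum.elim_inr,
    Matrix.cons_val_zero, Matrix.cons_val_one, Matrix.cons_val]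
  push_cast
  simp only [neg_mul, Finset.sum_neg_distrib]
  ring

theorem gb_A (L E P : LineBundle Γ) (c : ι → LineBundle Γ) (m : ℕ) (α : ι → ℕ) (γ : Γ) (v : V) :
    (gb (DD L E P c) (nA m fun i => (α i : ℤ))).e γ v
      = L.e γ v * ((∏ i, (c i).e γ v) ^ m * (∏ i, (c i).e γ v ^ α i)⁻¹) := by
  change ∏ k, (DD L E P c k).e γ v ^ (nA m fun i => (α i : ℤ)) k = _
  rw [Fintype.prod_sum_type, Fin.prod_univ_three]
  simp only [DD, nA, Sum.elim_inl, Sum.elim_inr, Matrix.cons_val_zero, Matrix.cons_val_one,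
    Matrix.cons_val, zpow_one, zpow_zero, mul_one]
  congr 1
  rw [← Finset.prod_pow, ← Finset.prod_inv_distrib, ← Finset.prod_mul_distrib]
  refine Finset.prod_congr rfl fun i _ => ?_
  rw [zpow_sub₀ ((c i).ne_zero γ v), zpow_natCast, zpow_natCast, div_eq_mul_inv]

theorem gb_M (L E P : LineBundle Γ) (c : ι → LineBundle Γ) (k : ℕ) (α : ι → ℕ) :
    gb (DD L E P c) (nM k fun i => (α i : ℤ)) = lb (tensor (tensor L E) P) c k α := by
  refine lb_ext fun γ v => ?_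
  rw [lb_e]
  change ∏ k', (DD L E P c k').e γ v ^ (nM k fun i => (α i : ℤ)) k' = _
  rw [Fintype.prod_sum_type, Fin.prod_univ_three]
  simp only [DD, nM, Sum.elim_inl, Sum.elim_inr, Matrix.cons_val_zero, Matrix.cons_val_one,
    Matrix.cons_val, zpow_natCast]
  change L.e γ v ^ k * E.e γ v ^ k * P.e γ v ^ k * _ = (L.e γ v * E.e γ v * P.e γ v) ^ k * _
  rw [mul_pow, mul_pow, ← Finset.prod_inv_distrib]
  congr 1
  exact Finset.prod_congr rfl fun i _ => by rw [zpow_neg, zpow_natCast]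

/-- The coefficients are log pluricanonical divisors. -/
theorem pair_A {u : ι → Fin n → ℤ} {c : ι → LineBundle Γ} {m : ℕ} {ρ : V → ℂ} {d : ι → ℤ}
    {F : V → MvPolynomial ι ℂ} {L E P : LineBundle Γ}
    (hF : TB.IsLogPluricanonical u c m ρ d F L) (α : ι →₀ ℕ) :
    Pool.Agent.TH735.AQ.IsLogPluricanonical (gb (DD L E P c) (nA m fun i => (α i : ℤ))) m ρ
      fun v => coeff α (F v) := by
  intro γ v
  have h1 : coeff α (F ((γ : V ≃ᵃ[ℂ] V) v)) * (∏ i, (c i).e γ v ^ α i) * ρ v ^ m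
      = (L.e γ v * (LinearMap.det ((γ : V ≃ᵃ[ℂ] V).linear : V →ₗ[ℂ] V) *
        ∏ i, (c i).e γ v) ^ m * ρ ((γ : V ≃ᵃ[ℂ] V) v) ^ m) * coeff α (F v) := by
    refine coeff_of_eval (fun x => ?_) α
    rw [hF.eq γ v x]
    ring
  rw [gb_A]
  have h2 : (∏ i, (c i).e γ v ^ α i) ≠ 0 :=
    Finset.prod_ne_zero_iff.2 fun i _ => pow_ne_zero _ ((c i).ne_zero γ v)
  rw [mul_pow] at h1
  field_simp
  linear_combination h1

variable [FiniteDimensional ℂ V]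

/-- Semiampleness up to a flat twist. -/
theorem semi (hΓ : IsTorusQuotient Γ) {ρ : V → ℂ} (hρ : IsRamification Γ ρ)
    {u : ι → Fin n → ℤ} {S : Set (Set ι)} (hS : IsSmoothFan u S)
    {c : ι → LineBundle Γ} {Hc : ι → V → V → ℂ} (hc : ∀ i, IsChernForm (c i) (Hc i))
    {m : ℕ} (hm : 1 ≤ m) {d : ι → ℤ} {F : V → MvPolynomial ι ℂ} {L : LineBundle Γ}
    {H : V → V → ℂ} (hL : IsChernForm L H) (hF : TB.IsLogPluricanonical u c m ρ d F L)
    (T : Finset (ι →₀ ℕ)) (hT : ∀ α ∈ T, ∃ v, coeff α (F v) ≠ 0) {p q : ℕ} (hqp : q < p)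
    (hw : ∀ a : ι → ℕ, {i | a i ≠ 0} ∈ S → ∃ α ∈ T, p * ∑ i, a i * α i ≤ q * (m * ∑ i, a i))
    {k₀ : ℕ} (hk₀ : 1 ≤ k₀) {β₀ : ι → ℕ}
    (hβ₀ : LinEquiv u (fun i => (β₀ i : ℤ)) fun i => k₀ * (d i - m))
    {b : ι → ℤ} {E : LineBundle Γ} {HE : V → V → ℂ} (hE : IsChernForm E HE)
    (hN : IsNef u S Hc b HE) :
    ∃ P : LineBundle Γ, IsFlat P ∧ ∀ (k : ℕ) (α : ι → ℕ), 1 ≤ k →
      LinEquiv u (fun i => (α i : ℤ)) (fun i => k * (d i - m + b i)) →
      (∀ x ∈ roots Γ, 0 ≤ ((k : ℂ) * (H x x + HE x x) - ∑ i, (α i : ℂ) * Hc i x x).re) →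
      IsNefForm (fun v w => (k : ℂ) * (H v w + HE v w) - ∑ i, (α i : ℂ) * Hc i v w) ∧
        ∃ N : ℕ, 1 ≤ N ∧ GG ((lb (tensor (tensor L E) P) c k α).pow N) := by
  classical
  have := finite_Lin hΓ
  have hGcard : 0 < Nat.card (Lin Γ) := Nat.card_pos
  obtain ⟨hHL, FL, hFL⟩ := hL
  obtain ⟨hHE, FE, hFE⟩ := hE
  choose hHc G hG using hc
  have hpL : IsPot L H FL := hFL
  have hpE : IsPot E HE FE := hFE
  have hpc : ∀ i, IsPot (c i) (Hc i) (G i) := hG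
  -- the nef part
  choose! ν hν0 hνc hνn using hN
  have hHD := DH_herm hHL hHE hHc
  -- the flat twist
  obtain ⟨P, hP, hPχ⟩ := exists_flat hΓ (gH_herm hHD (nE fun i => (ν ∅ i : ℤ)))
    (gb_pot (DD_pot hpL hpE (⟨fun _ _ _ => rfl, fun _ _ => by simp [one]⟩ : IsFlat (one Γ)) hpc)
      (nE fun i => (ν ∅ i : ℤ)))
  refine ⟨P, hP, fun k α hk hα hroots => ?_⟩
  have hpD := DD_pot hpL hpE hP hpc
  -- the monomials of the boundary and the vertices of the nef part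
  let J : Type _ := {α // α ∈ T} × {σ // σ ∈ S}
  have hfin : Finite {σ // σ ∈ S} := Subtype.finite
  have hft : Fintype {σ // σ ∈ S} := Fintype.ofFinite _
  let τ : J → ι → ℕ := fun j i => j.1.1 i + ν j.2.1 i
  have hTd : ∀ α ∈ T, LinEquiv u (fun i => (α i : ℤ)) d := fun α hα => by
    obtain ⟨v, hv⟩ := hT α hα
    exact hF.deg v α (mem_support_iff.2 hv)
  have hτ : ∀ j, LinEquiv u (fun i => (τ j i : ℤ)) fun i => d i + b i := by
    rintro ⟨⟨α', hα'⟩, ⟨σ, hσ⟩⟩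
    obtain ⟨q₁, hq₁⟩ := hTd α' hα'
    obtain ⟨q₂, hq₂⟩ := hνc σ hσ
    refine ⟨fun l => q₁ l + q₂ l, fun i => ?_⟩
    have e1 : (α' i : ℤ) = d i + ∑ l, q₁ l * u i l := hq₁ i
    have e2 : (ν σ i : ℤ) = b i + ∑ l, q₂ l * u i l := hq₂ i
    simp only [τ, add_mul, Finset.sum_add_distrib]
    push_cast
    rw [e1, e2]
    ring
  have hwτ : ∀ a : ι → ℕ, {i | a i ≠ 0} ∈ S → ∃ j, p * ∑ i, a i * τ j i ≤ q * (m * ∑ i, a i) := by
    intro a ha
    obtain ⟨α', hα', h1⟩ := hw a ha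
    refine ⟨(⟨α', hα'⟩, ⟨_, ha⟩), ?_⟩
    have h2 : ∑ i, a i * τ (⟨α', hα'⟩, ⟨_, ha⟩) i = ∑ i, a i * α' i := by
      refine Finset.sum_congr rfl fun i _ => ?_
      by_cases hi : a i = 0
      · rw [hi, zero_mul, zero_mul]
      · simp only [τ]
        rw [hν0 _ ha i hi, add_zero]
    rw [h2]
    exact h1
  obtain ⟨K, B, hK, hB, hBs, hBτ⟩ := hull_pos hS τ hτ hm hqp hwτ hk (α := α) (by
    obtain ⟨q', hq'⟩ := hα
    refine ⟨q', fun i => ?_⟩
    rw [hq' i]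
    ring)
  have hBs' : ∑ j, (B j : ℤ) = K * k := by exact_mod_cast hBs
  have hBτ' : ∀ i, ∑ j, (B j : ℤ) * τ j i = K * (α i + k * m) := fun i => by exact_mod_cast hBτ i
  -- the relation between the exponents
  have hrel : ∀ κ, (K : ℤ) * nM k (fun i => (α i : ℤ)) κ
      = ∑ j : J, (B j : ℤ) * (nA m (fun i => (j.1.1 i : ℤ)) κ + nE (fun i => (ν j.2.1 i : ℤ)) κ)
        + (K * k : ℤ) * nP κ := by
    rintro (κ | i)
    · fin_cases κ
      · change (K : ℤ) * k = ∑ j : J, (B j : ℤ) * (1 + 0) + (K * k : ℤ) * 0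
        simp only [add_zero, mul_one, mul_zero]
        rw [hBs']
      · change (K : ℤ) * k = ∑ j : J, (B j : ℤ) * (0 + 1) + (K * k : ℤ) * 0
        simp only [add_zero, zero_add, mul_one, mul_zero]
        rw [hBs']
      · change (K : ℤ) * k = ∑ j : J, (B j : ℤ) * (0 + 0) + (K * k : ℤ) * 1
        simp only [add_zero, mul_one, mul_zero, Finset.sum_const_zero, zero_add]
    · change (K : ℤ) * -(α i : ℤ) = ∑ j : J, (B j : ℤ) * ((m - (j.1.1 i : ℤ)) + -(ν j.2.1 i : ℤ))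
        + (K * k : ℤ) * 0
      have e1 : ∑ j : J, (B j : ℤ) * ((m - (j.1.1 i : ℤ)) + -(ν j.2.1 i : ℤ))
          = (∑ j, (B j : ℤ)) * m - ∑ j, (B j : ℤ) * τ j i := by
        rw [Finset.sum_mul, ← Finset.sum_sub_distrib]
        refine Finset.sum_congr rfl fun j _ => ?_
        simp only [τ]
        push_cast
        ring
      rw [e1, hBs', hBτ']
      ring
  -- the forms
  have hform : ∀ v w, (K : ℂ) * gH (DH H HE Hc) (nM k fun i => (α i : ℤ)) v w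
      = ∑ j : J, (B j : ℂ) * (gH (DH H HE Hc) (nA m fun i => (j.1.1 i : ℤ)) v w
        + gH (DH H HE Hc) (nE fun i => (ν j.2.1 i : ℤ)) v w) := by
    intro v w
    have hP0 : gH (DH H HE Hc) nP v w = 0 := by
      simp [gH, DH, nP, Fintype.sum_sum_type, Fin.sum_univ_three]
    have e1 : (K : ℂ) * gH (DH H HE Hc) (nM k fun i => (α i : ℤ)) v w
        = ∑ κ, (((K : ℤ) * nM k (fun i => (α i : ℤ)) κ : ℤ) : ℂ) * DH H HE Hc κ v w := by
      rw [gH, Finset.mul_sum]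
      refine Finset.sum_congr rfl fun κ _ => ?_
      push_cast
      ring
    rw [e1]
    simp only [hrel]
    have e2 : ∑ κ, ((∑ j : J, (B j : ℤ) * (nA m (fun i => (j.1.1 i : ℤ)) κ
          + nE (fun i => (ν j.2.1 i : ℤ)) κ) + (K * k : ℤ) * nP κ : ℤ) : ℂ) * DH H HE Hc κ v w
        = ∑ κ, (∑ j : J, (B j : ℂ) * ((nA m (fun i => (j.1.1 i : ℤ)) κ : ℂ) * DH H HE Hc κ v w
          + (nE (fun i => (ν j.2.1 i : ℤ)) κ : ℂ) * DH H HE Hc κ v w))
          + ∑ κ, (K * k : ℂ) * ((nP κ : ℂ) * DH H HE Hc κ v w) := by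
      rw [← Finset.sum_add_distrib]
      refine Finset.sum_congr rfl fun κ _ => ?_
      push_cast
      rw [add_mul, Finset.sum_mul]
      congr 1
      · exact Finset.sum_congr rfl fun j _ => by ring
      · ring
    rw [e2, ← Finset.mul_sum]
    have e3 : ∑ κ, (nP κ : ℂ) * DH H HE Hc κ v w = 0 := hP0
    rw [e3, mul_zero, add_zero, Finset.sum_comm]
    refine Finset.sum_congr rfl fun j _ => ?_
    rw [← Finset.mul_sum, Finset.sum_add_distrib]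
    rfl
  have hAfix : ∀ α' ∈ T, ∀ x, IsFixed Γ x →
      0 ≤ (gH (DH H HE Hc) (nA m fun i => (α' i : ℤ)) x x).re := fun α' hα' x hx =>
    pair_fixed hΓ hρ (hF.holo α') (hT α' hα') (pair_A hF α') (gH_herm hHD _) (gb_pot hpD _) hx
  have hEnef : ∀ σ ∈ S, IsNefForm (gH (DH H HE Hc) (nE fun i => (ν σ i : ℤ))) := by
    intro σ hσ x
    rw [gH_E]
    have := hνn σ hσ x
    push_cast
    exact this
  have hMform : ∀ v w, gH (DH H HE Hc) (nM k fun i => (α i : ℤ)) v w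
      = (k : ℂ) * (H v w + HE v w) - ∑ i, (α i : ℂ) * Hc i v w := by
    intro v w
    rw [gH_M]
    push_cast
    rfl
  have hKR : (0 : ℝ) < K := by exact_mod_cast hK
  have hre : ∀ x, (K : ℝ) * (gH (DH H HE Hc) (nM k fun i => (α i : ℤ)) x x).re
      = ∑ j : J, (B j : ℝ) * ((gH (DH H HE Hc) (nA m fun i => (j.1.1 i : ℤ)) x x).re
        + (gH (DH H HE Hc) (nE fun i => (ν j.2.1 i : ℤ)) x x).re) := by
    intro x
    have h1 := congrArg Complex.re (hform x x)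
    rw [re_nat_mul, Complex.re_sum] at h1
    rw [h1]
    refine Finset.sum_congr rfl fun j _ => ?_
    rw [re_nat_mul, Complex.add_re]
  have hchM : IsChernForm (gb (DD L E P c) (nM k fun i => (α i : ℤ)))
      (gH (DH H HE Hc) (nM k fun i => (α i : ℤ))) := ⟨gH_herm hHD _, _, gb_pot hpD _⟩
  have hnef : IsNefForm (gH (DH H HE Hc) (nM k fun i => (α i : ℤ))) := by
    refine nef_of_roots hΓ (inv_of_chern hchM) (fun x hx => ?_) fun x hx => ?_
    · have h1 : 0 ≤ (K : ℝ) * (gH (DH H HE Hc) (nM k fun i => (α i : ℤ)) x x).re := by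
        rw [hre]
        exact Finset.sum_nonneg fun j _ => mul_nonneg (Nat.cast_nonneg _)
          (add_nonneg (hAfix _ j.1.2 x hx) (hEnef _ j.2.2 x))
      exact nonneg_of_mul_nonneg_right h1 hKR
    · rw [hMform]
      exact hroots x hx
  refine ⟨fun v => ?_, ?_⟩
  · have := hnef v
    rw [hMform] at this
    exact this
  · rw [← gb_M L E P c k α]
    -- the characters
    have hHM := gH_herm hHD (nM k fun i => (α i : ℤ))
    have hzero : ∀ x ∈ KG Γ hHM, (∀ α' ∈ T,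
        (gH (DH H HE Hc) (nA m fun i => (α' i : ℤ)) x x).re = 0) ∧ ∀ σ ∈ S,
          (gH (DH H HE Hc) (nE fun i => (ν σ i : ℤ)) x x).re = 0 := by
      rintro x ⟨hx1, hx2⟩
      have hxf : IsFixed Γ x := fun g hg _ => hx2 ⟨g, hg⟩
      have h1 := hre x
      have h2 : gH (DH H HE Hc) (nM k fun i => (α i : ℤ)) x x = 0 := hx1 x
      rw [h2, Complex.zero_re, mul_zero] at h1
      have h3 := (Finset.sum_eq_zero_iff_of_nonneg fun j _ => mul_nonneg (Nat.cast_nonneg _)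
        (add_nonneg (hAfix _ j.1.2 x hxf) (hEnef _ j.2.2 x))).1 h1.symm
      have h4 : ∀ j : J, (gH (DH H HE Hc) (nA m fun i => (j.1.1 i : ℤ)) x x).re
          + (gH (DH H HE Hc) (nE fun i => (ν j.2.1 i : ℤ)) x x).re = 0 := by
        intro j
        refine (mul_eq_zero.1 (h3 j (Finset.mem_univ j))).resolve_left ?_
        have := hB j
        positivity
      have hne1 : ∅ ∈ S := hS.empty_mem
      obtain ⟨α₁, hα₁, -⟩ := hw (fun _ => 0) (by simpa using hne1)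
      refine ⟨fun α' hα' => ?_, fun σ hσ => ?_⟩
      · have h5 := h4 (⟨α', hα'⟩, ⟨∅, hne1⟩)
        have h6 := hAfix α' hα' x hxf
        have h7 := hEnef ∅ hne1 x
        linarith
      · have h5 := h4 (⟨α₁, hα₁⟩, ⟨σ, hσ⟩)
        have h6 := hAfix α₁ hα₁ x hxf
        have h7 := hEnef σ hσ x
        linarith
    have hAinv : ∀ α' : ι →₀ ℕ, Inv Γ (gH (DH H HE Hc) (nA m fun i => (α' i : ℤ))) := fun α' =>
      inv_of_chern (L := gb (DD L E P c) (nA m fun i => (α' i : ℤ)))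
        ⟨gH_herm hHD _, _, gb_pot hpD _⟩
    have hAker : ∀ α' ∈ T, ∀ x ∈ KG Γ hHM, x ∈ ker (gH_herm hHD (nA m fun i => (α' i : ℤ))) := by
      intro α' hα' x hx w
      exact ker_of_inv hΓ (hAinv α')
        (fun y hy => hAfix α' hα' y fun g hg _ => hy ⟨g, hg⟩) hx.2 ((hzero x hx).1 α' hα') w
    have hAχ : ∀ α' ∈ T, ∀ y ∈ latt Γ, y ∈ KG Γ hHM →
        chi (gb (DD L E P c) (nA m fun i => (α' i : ℤ))) (gF (DF FL FE G) (nA m fun i => (α' i : ℤ))) y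
          = 1 := fun α' hα' =>
      char_pair hΓ hHM (gb_pot hpD _) hnef (gH_herm hHD _) (gb_pot hpD _) (hAker α' hα') hρ
        (hF.holo α') (hT α' hα') (pair_A hF α')
    have hEker : ∀ x ∈ KG Γ hHM, x ∈ ker (gH_herm hHD (nE fun i => (ν ∅ i : ℤ))) := by
      intro x hx w
      exact h_isotropic (gH_herm hHD _) (hEnef ∅ hS.empty_mem) x
        ((hzero x hx).2 ∅ hS.empty_mem) w
    -- the vertices of the nef part
    have hspan : ∀ σ ∈ S, ∃ (N : ℕ) (b₁ b₂ : {α // α ∈ T} → ℕ), 1 ≤ N ∧ ∑ j, b₁ j = ∑ j, b₂ j ∧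
        ∀ i, (N : ℤ) * ((ν ∅ i : ℤ) - ν σ i)
          = ∑ j, (b₁ j : ℤ) * j.1 i - ∑ j, (b₂ j : ℤ) * j.1 i := by
      intro σ hσ
      obtain ⟨q₁, hq₁⟩ := hνc ∅ hS.empty_mem
      obtain ⟨q₂, hq₂⟩ := hνc σ hσ
      obtain ⟨N, b₁, b₂, hN1, hb, h1⟩ := spanning hS (fun (j : {α // α ∈ T}) i => j.1 i)
        (fun j => hTd j.1 j.2) hm hqp (fun a ha => by
          obtain ⟨α', hα', h⟩ := hw a ha
          exact ⟨⟨α', hα'⟩, h⟩) hk₀ hβ₀ fun l => q₁ l - q₂ l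
      refine ⟨N, b₁, b₂, hN1, hb, fun i => ?_⟩
      rw [← h1 i]
      have e1 : (ν ∅ i : ℤ) = b i + ∑ l, q₁ l * u i l := hq₁ i
      have e2 : (ν σ i : ℤ) = b i + ∑ l, q₂ l * u i l := hq₂ i
      rw [e1, e2]
      simp only [sub_mul, Finset.sum_sub_distrib]
      ring
    choose! Nσ b₁ b₂ hNσ hb12 hspanσ using hspan
    set N₁ := ∏ σ : {σ // σ ∈ S}, Nσ σ.1 with hN₁
    have hN₁1 : 1 ≤ N₁ := Nat.succ_le_of_lt (Finset.prod_pos fun σ _ => hNσ _ σ.2)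
    -- the torsion
    refine gg_of_char hΓ hHM (gb_pot hpD _) hnef
      (R := K * N₁ * Nat.card (Lin Γ)) (Nat.succ_le_of_lt
        (Nat.mul_pos (Nat.mul_pos hK hN₁1) hGcard)) fun y hy hyK => ?_
    let z : Fin 3 ⊕ ι → ℂ := fun κ => chi (DD L E P c κ) (DF FL FE G κ) y
    have hz : ∀ κ, z κ ≠ 0 := fun κ => chi_ne _ _ _
    have hzA : ∀ α' ∈ T, ∏ κ, z κ ^ nA m (fun i => (α' i : ℤ)) κ = 1 := by
      intro α' hα'
      rw [← hAχ α' hα' y hy hyK, gb_chi _ _ _ hy]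
    have hzE0 : (∏ κ, z κ ^ nP κ) * ∏ κ, z κ ^ nE (fun i => (ν ∅ i : ℤ)) κ
        = chi P (fun _ => 0) y * chi (gb (DD L E (one Γ) c) (nE fun i => (ν ∅ i : ℤ)))
          (gF (DF FL FE G) (nE fun i => (ν ∅ i : ℤ))) y := by
      rw [gb_chi _ _ _ hy]
      congr 1
      · simp [z, nP, Fintype.prod_sum_type, Fin.prod_univ_three, DD, DF]
      · refine Finset.prod_congr rfl fun κ _ => ?_
        rcases κ with κ | i
        · fin_cases κ
          · rfl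
          · rfl
          · simp [nE]
        · rfl
    have hzE0' : ((∏ κ, z κ ^ nP κ) * ∏ κ, z κ ^ nE (fun i => (ν ∅ i : ℤ)) κ)
        ^ Nat.card (Lin Γ) = 1 := by
      rw [hzE0]
      exact hPχ y hy (hEker y hyK)
    have hzE : ∀ σ ∈ S, (∏ κ, z κ ^ nE (fun i => (ν σ i : ℤ)) κ) ^ (N₁ : ℤ)
        = (∏ κ, z κ ^ nE (fun i => (ν ∅ i : ℤ)) κ) ^ (N₁ : ℤ) := by
      intro σ hσ
      have e0 : (∏ κ, z κ ^ nE (fun i => (ν σ i : ℤ)) κ) ^ (Nσ σ : ℤ)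
          = (∏ κ, z κ ^ nE (fun i => (ν ∅ i : ℤ)) κ) ^ (Nσ σ : ℤ) := by
        have e1 : ∀ κ, (Nσ σ : ℤ) * nE (fun i => (ν σ i : ℤ)) κ
            = (Nσ σ : ℤ) * nE (fun i => (ν ∅ i : ℤ)) κ
              + ∑ j : {α // α ∈ T}, ((b₂ σ j : ℤ) - b₁ σ j) * nA m (fun i => (j.1 i : ℤ)) κ := by
          have hs : ∑ j : {α // α ∈ T}, ((b₂ σ j : ℤ) - b₁ σ j) = 0 := by
            rw [Finset.sum_sub_distrib, sub_eq_zero]
            exact_mod_cast (hb12 σ hσ).symm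
          rintro (κ | i)
          · fin_cases κ
            · change (Nσ σ : ℤ) * 0 = (Nσ σ : ℤ) * 0 + ∑ j, ((b₂ σ j : ℤ) - b₁ σ j) * 1
              simp only [mul_one, mul_zero, zero_add]
              exact hs.symm
            · change (Nσ σ : ℤ) * 1 = (Nσ σ : ℤ) * 1 + ∑ j, ((b₂ σ j : ℤ) - b₁ σ j) * 0
              simp
            · change (Nσ σ : ℤ) * 0 = (Nσ σ : ℤ) * 0 + ∑ j, ((b₂ σ j : ℤ) - b₁ σ j) * 0
              simp
          · change (Nσ σ : ℤ) * -(ν σ i : ℤ) = (Nσ σ : ℤ) * -(ν ∅ i : ℤ)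
              + ∑ j : {α // α ∈ T}, ((b₂ σ j : ℤ) - b₁ σ j) * ((m : ℤ) - (j.1 i : ℤ))
            have e2 : ∑ j : {α // α ∈ T}, ((b₂ σ j : ℤ) - b₁ σ j) * ((m : ℤ) - (j.1 i : ℤ))
                = (∑ j : {α // α ∈ T}, ((b₂ σ j : ℤ) - b₁ σ j)) * m
                  + (∑ j : {α // α ∈ T}, (b₁ σ j : ℤ) * j.1 i
                    - ∑ j : {α // α ∈ T}, (b₂ σ j : ℤ) * j.1 i) := by
              rw [Finset.sum_mul, ← Finset.sum_sub_distrib, ← Finset.sum_add_distrib]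
              exact Finset.sum_congr rfl fun j _ => by ring
            rw [e2, hs, ← hspanσ σ hσ i]
            ring
        rw [← prod_zpow_mul, ← prod_zpow_mul]
        simp only [e1]
        rw [prod_zpow_add z hz, prod_zpow_sum _ z hz]
        have e3 : ∏ j : {α // α ∈ T}, (∏ κ, z κ ^ nA m (fun i => (j.1 i : ℤ)) κ)
            ^ ((b₂ σ j : ℤ) - b₁ σ j) = 1 :=
          Finset.prod_eq_one fun j _ => by rw [hzA j.1 j.2, one_zpow]
        rw [e3, mul_one]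
      obtain ⟨t, ht⟩ := Finset.dvd_prod_of_mem (fun σ : {σ // σ ∈ S} => Nσ σ.1)
        (Finset.mem_univ ⟨σ, hσ⟩)
      have ht' : (N₁ : ℤ) = (Nσ σ : ℤ) * t := by
        rw [hN₁, ht]
        push_cast
        rfl
      rw [ht', zpow_mul, zpow_mul, e0]
    -- the final computation
    have hM : chi (gb (DD L E P c) (nM k fun i => (α i : ℤ))) (gF (DF FL FE G)
        (nM k fun i => (α i : ℤ))) y = ∏ κ, z κ ^ nM k (fun i => (α i : ℤ)) κ := gb_chi _ _ _ hy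
    have hA1 : ∀ j : J, ∏ κ, z κ ^ (nA m (fun i => (j.1.1 i : ℤ)) κ
        + nE (fun i => (ν j.2.1 i : ℤ)) κ) = ∏ κ, z κ ^ nE (fun i => (ν j.2.1 i : ℤ)) κ := by
      intro j
      rw [prod_zpow_add z hz, hzA _ j.1.2, one_mul]
    set x₀ := ∏ κ, z κ ^ nE (fun i => (ν ∅ i : ℤ)) κ with hx₀
    set x₁ := ∏ κ, z κ ^ nP κ with hx₁
    have hx₀0 : x₀ ≠ 0 := Finset.prod_ne_zero_iff.2 fun κ _ => zpow_ne_zero _ (hz κ)
    have hx₁0 : x₁ ≠ 0 := Finset.prod_ne_zero_iff.2 fun κ _ => zpow_ne_zero _ (hz κ)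
    have h1 : (∏ κ, z κ ^ nM k (fun i => (α i : ℤ)) κ) ^ ((K : ℤ) * N₁)
        = (x₁ * x₀) ^ ((K * k : ℤ) * N₁) := by
      rw [zpow_mul, ← prod_zpow_mul]
      simp only [hrel]
      rw [prod_zpow_add z hz, prod_zpow_sum _ z hz, prod_zpow_mul z nP]
      simp only [hA1]
      rw [mul_zpow, ← Finset.prod_zpow]
      have h2 : ∀ j : J, ((∏ κ, z κ ^ nE (fun i => (ν j.2.1 i : ℤ)) κ) ^ (B j : ℤ)) ^ (N₁ : ℤ)
          = x₀ ^ ((B j : ℤ) * N₁) := by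
        intro j
        rw [← zpow_mul, mul_comm, zpow_mul, hzE _ j.2.2, ← zpow_mul, mul_comm]
      rw [Finset.prod_congr rfl fun j _ => h2 j]
      have h3 : ∏ j : J, x₀ ^ ((B j : ℤ) * N₁) = x₀ ^ ((K * k : ℤ) * N₁) := by
        have h4 : ∀ s : Finset J, ∏ j ∈ s, x₀ ^ ((B j : ℤ) * N₁)
            = x₀ ^ ((∑ j ∈ s, (B j : ℤ)) * N₁) := by
          intro s
          induction s using Finset.induction_on with
          | empty => simp
          | insert j s hj ih =>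
            rw [Finset.prod_insert hj, Finset.sum_insert hj, add_mul, zpow_add₀ hx₀0, ih]
        rw [h4, hBs']
      rw [h3, ← zpow_mul, mul_zpow, mul_comm]
    rw [hM, pow_mul, ← zpow_natCast (∏ κ, z κ ^ nM k (fun i => (α i : ℤ)) κ)]
    push_cast
    rw [h1, ← zpow_natCast, ← zpow_mul, mul_comm ((K * k : ℤ) * N₁), zpow_mul, zpow_natCast,
      hzE0', one_zpow]

end Q47.GA
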